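import Mathlib

set_option autoImplicit false

namespace Pool.Agent.Work.MP_99d66e_al

/-- A box space of graphs: a sequence of finite graphs with uniformly bounded degrees whose numbers
of vertices tend to infinity. The graphs need not be connected. -/
structure BoxSpace where
  V : ℕ → Type
  fintypeV : ∀ i, Fintype (V i)
  graph : ∀ i, SimpleGraph (V i)
  degree_bdd : ∃ D : ℕ, ∀ (i : ℕ) (x : V i), {y | (graph i).Adj x y}.ncard ≤ D
  card_tendsto : Filter.Tendsto (fun i => Nat.card (V i)) Filter.atTop Filter.atTop

namespace BoxSpace

variable (X : BoxSpace)

instance (i : ℕ) : Fintype (X.V i) := X.fintypeV i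

/-- The points of the disjoint union. -/
abbrev Pt : Type := Σ i, X.V i

noncomputable instance : DecidableEq X.Pt := Classical.decEq _

open Classical in
/-- The metric: the graph metric inside each graph (infinite between different components), and
infinite between different graphs. -/
noncomputable def edist (p q : X.Pt) : ℕ∞ :=
  if h : p.1 = q.1 then (X.graph q.1).edist (h ▸ p.2) q.2 else ⊤

end BoxSpace

end Pool.Agent.Work.MP_99d66e_al
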