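import Pool.Agent.Work.MP_99d66e_al.Finite

set_option autoImplicit false

namespace Pool.Agent.Work.MP_99d66e_al

open Finset Pointwise

section twist

variable {G : Type} [Group G] [Fintype G] [DecidableEq G]

open Classical in
/-- matrix of the graph Laplacian -/
noncomputable def lapM (Gr : SimpleGraph G) (z x : G) : ℝ :=
  ∑ w, if Gr.Adj z w then (if z = x then 1 else 0) - (if w = x then 1 else 0) else 0

omit [Group G] in
open Classical in
theorem lapM_eq (Gr : SimpleGraph G) (z x : G) :
    lapM Gr z x = (if z = x then (∑ w, if Gr.Adj z w then (1 : ℝ) else 0) else 0)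
      - if Gr.Adj z x then 1 else 0 := by
  unfold lapM
  by_cases hzx : z = x
  · subst hzx
    have e : ∀ w, (if Gr.Adj z w then (if z = z then (1 : ℝ) else 0) - (if w = z then 1 else 0)
        else 0) = if Gr.Adj z w then 1 else 0 := by
      intro w
      by_cases h : Gr.Adj z w
      · simp [h, h.ne']
      · simp [h]
    rw [sum_congr rfl (fun w _ => e w)]
    simp
  · have e : ∀ w, (if Gr.Adj z w then (if z = x then (1 : ℝ) else 0) - (if w = x then 1 else 0)
        else 0) = if w = x then (- if Gr.Adj z x then 1 else 0) else 0 := by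
      intro w
      by_cases hw : w = x
      · subst hw
        simp only [if_true, if_neg hzx]
        split_ifs <;> norm_num
      · simp [hw, hzx]
    rw [sum_congr rfl (fun w _ => e w)]
    simp [hzx]

omit [Group G] in
theorem lapM_ne {Gr : SimpleGraph G} {z x : G} (h : lapM Gr z x ≠ 0) : z = x ∨ Gr.Adj z x := by
  classical
  by_contra hcon
  push Not at hcon
  apply h
  rw [lapM_eq, if_neg hcon.1, if_neg hcon.2, sub_zero]

omit [Group G] in
open Classical in
/-- the twisted Laplacian -/
theorem twisted_apply (Gr : SimpleGraph G) (s : G → G → ℝ) (hs : ∀ z, s z z = 1) (u : G → ℝ)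
    (z : G) :
    ∑ x, s z x * lapM Gr z x * u x = ∑ x, if Gr.Adj z x then u z - s z x * u x else 0 := by
  have h1 : ∀ x, s z x * lapM Gr z x * u x
      = (if z = x then (∑ w, if Gr.Adj z w then (1 : ℝ) else 0) * u z else 0)
        - if Gr.Adj z x then s z x * u x else 0 := by
    intro x
    rw [lapM_eq]
    by_cases hzx : z = x
    · subst hzx
      simp only [if_true, hs, Gr.loopless.irrefl, if_false]
      ring
    · simp only [if_neg hzx]
      split_ifs <;> ring
  rw [sum_congr rfl (fun x _ => h1 x), sum_sub_distrib, sum_ite_eq]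
  simp only [mem_univ, if_true]
  rw [sum_mul, ← sum_sub_distrib]
  refine sum_congr rfl (fun x _ => ?_)
  split_ifs <;> ring

omit [Group G] in
open Classical in
theorem quad_form (Gr : SimpleGraph G) (s : G → G → ℝ) (hsym : ∀ x y, s x y = s y x)
    (hsq : ∀ x y, s x y * s x y = 1) (u : G → ℝ) :
    2 * ∑ z, u z * (∑ x, if Gr.Adj z x then u z - s z x * u x else 0)
      = ∑ z, ∑ x, if Gr.Adj z x then (u z - s z x * u x) ^ 2 else 0 := by
  have h1 : ∑ z, u z * (∑ x, if Gr.Adj z x then u z - s z x * u x else 0)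
      = ∑ z, ∑ x, if Gr.Adj z x then u z * (u z - s z x * u x) else 0 := by
    refine sum_congr rfl (fun z _ => ?_)
    rw [mul_sum]
    refine sum_congr rfl (fun x _ => ?_)
    split_ifs <;> ring
  have h2 : ∑ z, ∑ x, (if Gr.Adj z x then u z * (u z - s z x * u x) else 0)
      = ∑ z, ∑ x, if Gr.Adj z x then u x * (u x - s z x * u z) else 0 := by
    rw [sum_comm]
    refine sum_congr rfl (fun z _ => sum_congr rfl (fun x _ => ?_))
    rw [hsym x z]
    simp only [Gr.adj_comm x z]
  have h3 : 2 * ∑ z, u z * (∑ x, if Gr.Adj z x then u z - s z x * u x else 0)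
      = (∑ z, ∑ x, if Gr.Adj z x then u z * (u z - s z x * u x) else 0)
        + ∑ z, ∑ x, if Gr.Adj z x then u x * (u x - s z x * u z) else 0 := by
    rw [h1, ← h2]; ring
  rw [h3, ← sum_add_distrib]
  refine sum_congr rfl (fun z _ => ?_)
  rw [← sum_add_distrib]
  refine sum_congr rfl (fun x _ => ?_)
  split_ifs with h
  · have := hsq z x
    calc u z * (u z - s z x * u x) + u x * (u x - s z x * u z)
        = u z ^ 2 - 2 * s z x * u x * u z + 1 * u x ^ 2 := by ring
      _ = u z ^ 2 - 2 * s z x * u x * u z + (s z x * s z x) * u x ^ 2 := by rw [this]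
      _ = _ := by ring
  · ring

theorem sg_symm (S : Finset G) (b : G) (R : ℕ) (x y : G) : sg S b R x y = sg S b R y x := by
  classical
  unfold sg
  congr 1
  apply propext
  constructor
  · rintro (⟨h1, h2⟩ | ⟨h1, h2⟩)
    · right; exact ⟨h2, h1⟩
    · left; exact ⟨h2, h1⟩
  · rintro (⟨h1, h2⟩ | ⟨h1, h2⟩)
    · right; exact ⟨h2, h1⟩
    · left; exact ⟨h2, h1⟩

theorem sg_sq (S : Finset G) (b : G) (R : ℕ) (x y : G) : sg S b R x y * sg S b R x y = 1 := by
  unfold sg; split_ifs <;> norm_num

theorem sg_self {S : Finset G} (hS : ∀ s ∈ S, s⁻¹ ∈ S) {b : G} {R : ℕ}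
    (hb : b ∉ ball S (6 * R)) (x : G) : sg S b R x x = 1 := by
  rw [sg_eq hS hb (SimpleGraph.Walk.nil : (cg S hS b).Walk x x) SimpleGraph.Walk.nil
    (by simp) (by simp)]
  exact sz_sq _ _ _ _ _

theorem sg_step {S : Finset G} (hS : ∀ s ∈ S, s⁻¹ ∈ S) {b : G} {R : ℕ} (hR : 1 ≤ R)
    (hb : b ∉ ball S (6 * R)) {x y : G} (h : x⁻¹ * y ∈ S) : sg S b R x y = 1 := by
  unfold sg
  rw [if_neg]
  rintro (⟨h1, h2⟩ | ⟨h1, h2⟩)
  · apply hb
    have h3 := ball_mul S (ball_mul S h1 (mem_ball_one h)) (ball_inv S hS h2)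
    rw [mul_inv_cancel_left, mul_inv_rev, inv_inv, mul_inv_cancel_left] at h3
    exact ball_mono S (by omega) h3
  · apply hb
    have h3 := ball_mul S (ball_mul S h2 (mem_ball_one (hS _ h))) (ball_inv S hS h1)
    rw [mul_inv_rev, inv_inv, mul_inv_cancel_left, mul_inv_rev, inv_inv,
      mul_inv_cancel_left] at h3
    exact ball_mono S (by omega) h3

theorem sg_extra (S : Finset G) (b : G) (R : ℕ) : sg S b R 1 b = -1 := by
  unfold sg
  rw [if_pos]
  left
  exact ⟨one_mem_ball _ _, by rw [inv_mul_cancel]; exact one_mem_ball _ _⟩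

open Classical in
/-- The key finite statement: a bounded propagation sum of squares certificate forces the graph
to be small. -/
theorem fin_main {S : Finset G} (hS : ∀ s ∈ S, s⁻¹ ∈ S) (h1S : (1 : G) ∉ S) {b : G} {R : ℕ}
    (hR : 1 ≤ R) (hb : b ∉ ball S (6 * R)) (hgen : Subgroup.closure (S : Set G) = ⊤)
    {c : ℝ} (hc : 0 ≤ c) {n : ℕ} (M : Fin n → G → G → ℂ)
    (hM : ∀ k z x, M k z x ≠ 0 → ∃ p : (cg S hS b).Walk z x, p.length ≤ R)
    (h : ∀ x y, (((∑ z, lapM (cg S hS b) z x * lapM (cg S hS b) z y)
      - c * lapM (cg S hS b) x y : ℝ) : ℂ) = ∑ k, ∑ z, star (M k z x) * M k z y) :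
    c * Fintype.card G ≤ 4 := by
  set Gr := cg S hS b with hGr
  let s := sg S b R
  have hb1 : (1 : G) ≠ b := by
    intro h0
    apply hb
    rw [← h0]; exact one_mem_ball _ _
  have hbS : b ∉ S := fun h0 => hb (ball_mono S (by omega) (mem_ball_one h0))
  have hs1 : ∀ z, s z z = 1 := sg_self hS hb
  have hsym : ∀ x y, s x y = s y x := sg_symm S b R
  have hsq : ∀ x y, s x y * s x y = 1 := sg_sq S b R
  -- positivity
  have hpos : ∀ u : G → ℝ, 0 ≤ ∑ x, ∑ y, u x * u y * s x y *
      ((∑ z, lapM Gr z x * lapM Gr z y) - c * lapM Gr x y) := by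
    intro u
    have hC : ((∑ x, ∑ y, u x * u y * s x y *
        ((∑ z, lapM Gr z x * lapM Gr z y) - c * lapM Gr x y) : ℝ) : ℂ)
        = ∑ k, ∑ z, star (∑ x, (sz S b R z x : ℂ) * M k z x * u x)
          * (∑ x, (sz S b R z x : ℂ) * M k z x * u x) := by
      have e1 : ((∑ x, ∑ y, u x * u y * s x y *
          ((∑ z, lapM Gr z x * lapM Gr z y) - c * lapM Gr x y) : ℝ) : ℂ)
          = ∑ x, ∑ y, (u x : ℂ) * u y * s x y * ∑ k, ∑ z, star (M k z x) * M k z y := by
        push_cast
        refine sum_congr rfl (fun x _ => sum_congr rfl (fun y _ => ?_))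
        rw [← h x y]
        push_cast
        rfl
      rw [e1]
      have e2 : ∀ x y, (u x : ℂ) * u y * s x y * ∑ k, ∑ z, star (M k z x) * M k z y
          = ∑ k, ∑ z, star ((sz S b R z x : ℂ) * M k z x * u x)
            * ((sz S b R z y : ℂ) * M k z y * u y) := by
        intro x y
        rw [mul_sum]
        refine sum_congr rfl (fun k _ => ?_)
        rw [mul_sum]
        refine sum_congr rfl (fun z _ => ?_)
        by_cases hx : M k z x = 0
        · simp [hx]
        by_cases hy : M k z y = 0
        · simp [hy]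
        obtain ⟨p, hp⟩ := hM k z x hx
        obtain ⟨q, hq⟩ := hM k z y hy
        have h3 : s x y = sz S b R z x * sz S b R z y := sg_eq hS hb p q hp hq
        rw [h3]
        simp only [star_mul', RCLike.star_def, Complex.conj_ofReal, Complex.ofReal_mul]
        ring
      rw [sum_congr rfl (fun x _ => sum_congr rfl (fun y _ => e2 x y))]
      -- reorder sums
      have e3 : ∀ x, ∑ y, ∑ k, ∑ z, star ((sz S b R z x : ℂ) * M k z x * u x)
            * ((sz S b R z y : ℂ) * M k z y * u y)
          = ∑ k, ∑ z, ∑ y, star ((sz S b R z x : ℂ) * M k z x * u x)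
            * ((sz S b R z y : ℂ) * M k z y * u y) := by
        intro x
        rw [sum_comm]
        exact sum_congr rfl (fun k _ => sum_comm)
      rw [sum_congr rfl (fun x _ => e3 x), sum_comm]
      refine sum_congr rfl (fun k _ => ?_)
      rw [sum_comm]
      refine sum_congr rfl (fun z _ => ?_)
      rw [star_sum, sum_mul_sum]
    have hnn : 0 ≤ ∑ k, ∑ z, ‖∑ x, (sz S b R z x : ℂ) * M k z x * u x‖ ^ 2 := by positivity
    have hC2 : ((∑ x, ∑ y, u x * u y * s x y *
        ((∑ z, lapM Gr z x * lapM Gr z y) - c * lapM Gr x y) : ℝ) : ℂ)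
        = ((∑ k, ∑ z, ‖∑ x, (sz S b R z x : ℂ) * M k z x * u x‖ ^ 2 : ℝ) : ℂ) := by
      rw [hC]
      push_cast
      refine sum_congr rfl (fun k _ => sum_congr rfl (fun z _ => ?_))
      rw [RCLike.star_def, Complex.conj_mul']
    rw [Complex.ofReal_injective hC2]
    exact hnn
  -- the twisted operator
  let T : (G → ℝ) → G → ℝ := fun u z => ∑ x, if Gr.Adj z x then u z - s z x * u x else 0
  have hT : ∀ u z, ∑ x, s z x * lapM Gr z x * u x = T u z := twisted_apply Gr s hs1
  -- (B) and (C)
  have hB : ∀ u : G → ℝ, ∑ x, ∑ y, u x * u y * s x y * (∑ z, lapM Gr z x * lapM Gr z y)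
      = ∑ z, T u z * T u z := by
    intro u
    have hwalk : ∀ z x, lapM Gr z x ≠ 0 → ∃ p : Gr.Walk z x, p.length ≤ R := by
      intro z x hzx
      rcases lapM_ne hzx with h0 | h0
      · subst h0; exact ⟨SimpleGraph.Walk.nil, by simp⟩
      · exact ⟨SimpleGraph.Walk.cons h0 SimpleGraph.Walk.nil, by simpa using hR⟩
    have hzz : ∀ z x, lapM Gr z x ≠ 0 → sz S b R z x = sz S b R z z * s z x := by
      intro z x hzx
      obtain ⟨p, hp⟩ := hwalk z x hzx
      have h3 : s z x = sz S b R z z * sz S b R z x :=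
        sg_eq hS hb (SimpleGraph.Walk.nil : Gr.Walk z z) p (by simp) hp
      rw [h3, ← mul_assoc, sz_sq, one_mul]
    have h4 : ∀ z, ∑ x, sz S b R z x * lapM Gr z x * u x = sz S b R z z * T u z := by
      intro z
      rw [← hT, mul_sum]
      refine sum_congr rfl (fun x _ => ?_)
      by_cases h0 : lapM Gr z x = 0
      · simp [h0]
      · rw [hzz z x h0]; ring
    have h5 : ∀ z, T u z * T u z = (∑ x, sz S b R z x * lapM Gr z x * u x)
        * (∑ x, sz S b R z x * lapM Gr z x * u x) := by
      intro z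
      rw [h4]
      calc T u z * T u z = 1 * (T u z * T u z) := by ring
        _ = (sz S b R z z * sz S b R z z) * (T u z * T u z) := by rw [sz_sq]
        _ = _ := by ring
    rw [sum_congr rfl (fun z _ => h5 z)]
    have h6 : ∀ z, (∑ x, sz S b R z x * lapM Gr z x * u x)
        * (∑ x, sz S b R z x * lapM Gr z x * u x)
        = ∑ x, ∑ y, u x * u y * s x y * (lapM Gr z x * lapM Gr z y) := by
      intro z
      rw [sum_mul_sum]
      refine sum_congr rfl (fun x _ => sum_congr rfl (fun y _ => ?_))
      by_cases hx : lapM Gr z x = 0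
      · simp [hx]
      by_cases hy : lapM Gr z y = 0
      · simp [hy]
      obtain ⟨p, hp⟩ := hwalk z x hx
      obtain ⟨q, hq⟩ := hwalk z y hy
      have h3 : s x y = sz S b R z x * sz S b R z y := sg_eq hS hb p q hp hq
      rw [h3]; ring
    rw [sum_congr rfl (fun z _ => h6 z)]
    symm
    rw [sum_comm]
    refine sum_congr rfl (fun x _ => ?_)
    rw [sum_comm]
    refine sum_congr rfl (fun y _ => ?_)
    rw [mul_sum]
  have hCC : ∀ u : G → ℝ, ∑ x, ∑ y, u x * u y * s x y * lapM Gr x y = ∑ x, u x * T u x := by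
    intro u
    refine sum_congr rfl (fun x _ => ?_)
    rw [← hT, mul_sum]
    exact sum_congr rfl (fun y _ => by ring)
  have hineq : ∀ u : G → ℝ, c * ∑ x, u x * T u x ≤ ∑ z, T u z * T u z := by
    intro u
    have h7 := hpos u
    have h8 : ∑ x, ∑ y, u x * u y * s x y *
        ((∑ z, lapM Gr z x * lapM Gr z y) - c * lapM Gr x y)
        = (∑ x, ∑ y, u x * u y * s x y * (∑ z, lapM Gr z x * lapM Gr z y))
          - c * ∑ x, ∑ y, u x * u y * s x y * lapM Gr x y := by
      rw [mul_sum, ← sum_sub_distrib]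
      refine sum_congr rfl (fun x _ => ?_)
      rw [mul_sum, ← sum_sub_distrib]
      exact sum_congr rfl (fun y _ => by ring)
    rw [h8, hB, hCC] at h7
    linarith
  -- signs on edges
  have hedge : ∀ z x, Gr.Adj z x → z⁻¹ * x ∈ S ∨ (z = 1 ∧ x = b) ∨ (z = b ∧ x = 1) :=
    fun z x h => h.2
  have hadj1b : Gr.Adj 1 b := ⟨hb1, Or.inr (Or.inl ⟨rfl, rfl⟩)⟩
  have hs1b : s 1 b = -1 := sg_extra S b R
  -- quadratic form
  have hQ : ∀ u : G → ℝ, (u 1 + u b) ^ 2 ≤ ∑ z, u z * T u z := by
    intro u
    have h9 := quad_form Gr s hsym hsq u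
    have hnn : ∀ z x, 0 ≤ (if Gr.Adj z x then (u z - s z x * u x) ^ 2 else 0) := by
      intro z x; split_ifs <;> positivity
    have h10 : (∑ x, if Gr.Adj 1 x then (u 1 - s 1 x * u x) ^ 2 else 0)
        + (∑ x, if Gr.Adj b x then (u b - s b x * u x) ^ 2 else 0)
        ≤ ∑ z, ∑ x, if Gr.Adj z x then (u z - s z x * u x) ^ 2 else 0 := by
      rw [← sum_pair hb1 (f := fun z => ∑ x, if Gr.Adj z x then (u z - s z x * u x) ^ 2 else 0)]
      exact sum_le_sum_of_subset_of_nonneg (subset_univ _)
        (fun z _ _ => sum_nonneg (fun x _ => hnn z x))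
    have h11 : (u 1 + u b) ^ 2 ≤ ∑ x, if Gr.Adj 1 x then (u 1 - s 1 x * u x) ^ 2 else 0 := by
      refine le_trans (le_of_eq ?_) (single_le_sum (fun x _ => hnn 1 x) (mem_univ b))
      rw [if_pos hadj1b, hs1b]; ring
    have h12 : (u 1 + u b) ^ 2 ≤ ∑ x, if Gr.Adj b x then (u b - s b x * u x) ^ 2 else 0 := by
      refine le_trans (le_of_eq ?_) (single_le_sum (fun x _ => hnn b x) (mem_univ 1))
      rw [if_pos hadj1b.symm, hsym b 1, hs1b]; ring
    have h13 : 2 * ∑ z, u z * T u z = ∑ z, ∑ x, if Gr.Adj z x then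
        (u z - s z x * u x) ^ 2 else 0 := h9
    linarith
  -- sum of T u
  have hsumT : ∀ u : G → ℝ, ∑ z, T u z = 2 * (u 1 + u b) := by
    intro u
    have e1 : ∑ z, T u z = ∑ z, ∑ x, (if Gr.Adj z x then u z else 0)
        - ∑ z, ∑ x, (if Gr.Adj z x then s z x * u x else 0) := by
      rw [← sum_sub_distrib]
      refine sum_congr rfl (fun z _ => ?_)
      rw [← sum_sub_distrib]
      refine sum_congr rfl (fun x _ => ?_)
      split_ifs <;> ring
    have e2 : ∑ z, ∑ x, (if Gr.Adj z x then s z x * u x else 0)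
        = ∑ z, ∑ x, (if Gr.Adj z x then s z x * u z else 0) := by
      rw [sum_comm]
      refine sum_congr rfl (fun z _ => sum_congr rfl (fun x _ => ?_))
      rw [hsym x z]
      simp only [Gr.adj_comm x z]
    have e3 : ∀ z x, (if Gr.Adj z x then u z else 0) - (if Gr.Adj z x then s z x * u z else 0)
        = (if z = 1 then (if x = b then 2 * u z else 0) else 0)
          + (if z = b then (if x = 1 then 2 * u z else 0) else 0) := by
      intro z x
      by_cases h : Gr.Adj z x
      · rw [if_pos h, if_pos h]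
        rcases hedge z x h with h' | h' | h'
        · rw [show s z x = 1 from sg_step hS hR hb h']
          have n1 : ¬ (z = 1 ∧ x = b) := by
            rintro ⟨rfl, rfl⟩
            rw [inv_one, one_mul] at h'
            exact hbS h'
          have n2 : ¬ (z = b ∧ x = 1) := by
            rintro ⟨rfl, rfl⟩
            have := hS _ h'
            rw [mul_one, inv_inv] at this
            exact hbS this
          by_cases hz1 : z = 1
          · have hx : x ≠ b := fun hx => n1 ⟨hz1, hx⟩
            have hzb : z ≠ b := by rw [hz1]; exact hb1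
            simp [hz1, hx, hb1]
          · by_cases hzb : z = b
            · have hx : x ≠ 1 := fun hx => n2 ⟨hzb, hx⟩
              simp [hzb, hx, Ne.symm hb1]
            · simp [hz1, hzb]
        · obtain ⟨rfl, rfl⟩ := h'
          rw [hs1b, if_pos rfl, if_pos rfl, if_neg hb1]; ring
        · obtain ⟨rfl, rfl⟩ := h'
          rw [hsym, hs1b, if_pos rfl, if_pos rfl, if_neg (Ne.symm hb1)]; ring
      · rw [if_neg h, if_neg h]
        have n1 : ¬ (z = 1 ∧ x = b) := by
          rintro ⟨rfl, rfl⟩; exact h hadj1b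
        have n2 : ¬ (z = b ∧ x = 1) := by
          rintro ⟨rfl, rfl⟩; exact h hadj1b.symm
        by_cases hz1 : z = 1
        · have hx : x ≠ b := fun hx => n1 ⟨hz1, hx⟩
          simp [hz1, hx, hb1]
        · by_cases hzb : z = b
          · have hx : x ≠ 1 := fun hx => n2 ⟨hzb, hx⟩
            simp [hzb, hx, Ne.symm hb1]
          · simp [hz1, hzb]
    rw [e1, e2, ← sum_sub_distrib]
    simp only [← sum_sub_distrib]
    rw [sum_congr rfl (fun z _ => sum_congr rfl (fun x _ => e3 z x))]
    simp only [sum_add_distrib]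
    have e4 : ∀ (a w : G), (∑ z, ∑ x, (if z = a then (if x = w then 2 * u z else 0) else 0))
        = 2 * u a := by
      intro a w
      rw [sum_eq_single a]
      · simp
      · intro z _ hz; simp [hz]
      · intro h; exact absurd (mem_univ _) h
    rw [e4, e4]; ring
  -- injectivity
  have hinj : ∀ u : G → ℝ, T u = 0 → u = 0 := by
    intro u hu
    have h9 := quad_form Gr s hsym hsq u
    have h13 : 2 * ∑ z, u z * T u z = ∑ z, ∑ x, if Gr.Adj z x then
        (u z - s z x * u x) ^ 2 else 0 := h9
    have hnn : ∀ z x, 0 ≤ (if Gr.Adj z x then (u z - s z x * u x) ^ 2 else 0) := by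
      intro z x; split_ifs <;> positivity
    rw [hu] at h13
    simp only [Pi.zero_apply, mul_zero, sum_const_zero] at h13
    have h14 : ∀ z x, (if Gr.Adj z x then (u z - s z x * u x) ^ 2 else 0) = 0 := by
      intro z x
      have a1 := (sum_eq_zero_iff_of_nonneg (fun z _ => sum_nonneg (fun x _ => hnn z x))).1
        h13.symm z (mem_univ z)
      exact (sum_eq_zero_iff_of_nonneg (fun x _ => hnn z x)).1 a1 x (mem_univ x)
    have h15 : ∀ z, ∀ t ∈ S, u (z * t) = u z := by
      intro z t ht
      have hadj : Gr.Adj z (z * t) := by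
        refine ⟨?_, Or.inl (by rwa [inv_mul_cancel_left])⟩
        intro h0
        have : t = 1 := by
          have := congrArg (fun w => z⁻¹ * w) h0
          simp at this
          exact this.symm
        rw [this] at ht
        exact h1S ht
      have h16 := h14 z (z * t)
      rw [if_pos hadj, show s z (z * t) = 1 from sg_step hS hR hb (by rwa [inv_mul_cancel_left])]
        at h16
      have := pow_eq_zero_iff (two_ne_zero) |>.1 h16
      linarith
    have h17 : ∀ g : G, ∀ z, u (z * g) = u z := by
      intro g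
      have hg : g ∈ Subgroup.closure (S : Set G) := by rw [hgen]; trivial
      induction hg using Subgroup.closure_induction with
      | mem t ht => intro z; exact h15 z t ht
      | one => intro z; rw [mul_one]
      | mul x y _ _ hx hy => intro z; rw [← mul_assoc, hy, hx]
      | inv x _ hx =>
        intro z
        have := hx (z * x⁻¹)
        rw [inv_mul_cancel_right] at this
        exact this.symm
    have h18 : ∀ g, u g = u 1 := by
      intro g
      have := h17 g 1
      rwa [one_mul] at this
    have h19 := h14 1 b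
    rw [if_pos hadj1b, hs1b, h18 b] at h19
    have h20 : u 1 = 0 := by
      have := pow_eq_zero_iff (two_ne_zero) |>.1 h19
      linarith
    funext g
    rw [h18 g, h20]; rfl
  -- solve T u = 1
  obtain ⟨u, hu⟩ : ∃ u : G → ℝ, T u = fun _ => 1 := by
    let TL : (G → ℝ) →ₗ[ℝ] (G → ℝ) :=
      { toFun := T
        map_add' := by
          intro u v
          funext z
          simp only [T, Pi.add_apply]
          rw [← sum_add_distrib]
          refine sum_congr rfl (fun x _ => ?_)
          split_ifs <;> ring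
        map_smul' := by
          intro r u
          funext z
          simp only [T, Pi.smul_apply, smul_eq_mul, RingHom.id_apply]
          rw [mul_sum]
          refine sum_congr rfl (fun x _ => ?_)
          split_ifs <;> ring }
    have hTLinj : Function.Injective TL := by
      rw [injective_iff_map_eq_zero]
      intro u hu
      exact hinj u hu
    exact (LinearMap.injective_iff_surjective.1 hTLinj) (fun _ => 1)
  have k1 := hineq u
  have k2 := hQ u
  have k3 := hsumT u
  rw [hu] at k1 k2 k3
  simp only [mul_one, sum_const, card_univ, nsmul_eq_mul] at k1 k2 k3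
  have hN : (0 : ℝ) < Fintype.card G := by
    have : 0 < Fintype.card G := Fintype.card_pos
    exact_mod_cast this
  have k4 : c * (u 1 + u b) ^ 2 ≤ Fintype.card G := le_trans (mul_le_mul_of_nonneg_left k2 hc) k1
  have k5 : u 1 + u b = Fintype.card G / 2 := by linarith
  rw [k5] at k4
  have k6 : (c * Fintype.card G) * Fintype.card G ≤ 4 * Fintype.card G := by
    nlinarith
  exact le_of_mul_le_mul_right k6 hN

end twist

end Pool.Agent.Work.MP_99d66e_al
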