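import Pool.Agent.Work.MP_99d66e_al.Lap
import Pool.Agent.Work.MP_99d66e_al.Twist

set_option autoImplicit false

namespace Pool.Agent.Work.MP_99d66e_al

open BoxSpace

noncomputable section

/-- The matrix entries of `S` on the component `i`. -/
def En (i : ℕ) (S : XX.roe) (z x : Gn i) : ℂ := (S.1 (XX.delta ⟨i, x⟩)) (⟨i, z⟩ : XX.Pt)

theorem En_sub (i : ℕ) (S T : XX.roe) (z x : Gn i) : En i (S - T) z x = En i S z x - En i T z x :=
  rfl

theorem En_smul (i : ℕ) (c : ℂ) (S : XX.roe) (z x : Gn i) : En i (c • S) z x = c * En i S z x :=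
  rfl

theorem En_sum (i n : ℕ) (S : Fin n → XX.roe) (z x : Gn i) :
    En i (∑ k, S k) z x = ∑ k, En i (S k) z x := sum_apply' _ _ _ _

theorem comp_zero (T : XX.roe) (i : ℕ) (x : Gn i) (r : XX.Pt) (h : r.1 ≠ i) :
    (T.1 (XX.delta ⟨i, x⟩)) r = 0 := by
  obtain ⟨R, hR⟩ := (XX.finProp_iff T.1).1 T.2
  apply hR
  rw [XX.edist_ne (p := ⟨i, x⟩) (q := r) (fun h' => h h'.symm)]
  exact le_top

theorem En_mul (i : ℕ) (S T : XX.roe) (z x : Gn i) :
    En i (S * T) z x = ∑ y, En i S z y * En i T y x := by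
  have h1 := XX.hasSum_apply S.1 (T.1 (XX.delta ⟨i, x⟩)) (⟨i, z⟩ : XX.Pt)
  let e : Gn i ↪ XX.Pt := ⟨fun y => ⟨i, y⟩, fun a b h => eq_of_heq (Sigma.mk.inj h).2⟩
  have h2 : HasSum (fun r => (T.1 (XX.delta ⟨i, x⟩)) r * (S.1 (XX.delta r)) (⟨i, z⟩ : XX.Pt))
      (∑ r ∈ Finset.univ.map e, (T.1 (XX.delta ⟨i, x⟩)) r * (S.1 (XX.delta r)) (⟨i, z⟩ : XX.Pt)) := by
    apply hasSum_sum_of_ne_finset_zero
    rintro ⟨i', r⟩ hr
    have hne : i' ≠ i := by
      rintro rfl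
      exact hr (Finset.mem_map.2 ⟨r, Finset.mem_univ _, rfl⟩)
    rw [comp_zero T i x ⟨i', r⟩ hne, zero_mul]
  have h3 := h1.unique h2
  rw [Finset.sum_map] at h3
  show (S.1 (T.1 (XX.delta ⟨i, x⟩))) (⟨i, z⟩ : XX.Pt) = _
  rw [h3]
  refine Finset.sum_congr rfl (fun y _ => ?_)
  rw [mul_comm]
  rfl

theorem En_star (i : ℕ) (S : XX.roe) (z x : Gn i) : En i (star S) z x = star (En i S x z) := by
  unfold En
  rw [← XX.inner_delta' ((star S).1 (XX.delta ⟨i, x⟩)) ⟨i, z⟩,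
    ← XX.inner_delta (S.1 (XX.delta ⟨i, z⟩)) ⟨i, x⟩]
  show inner ℂ (XX.delta ⟨i, z⟩) (star S.1 (XX.delta ⟨i, x⟩)) = _
  rw [ContinuousLinearMap.star_eq_adjoint, ContinuousLinearMap.adjoint_inner_right]

open Classical in
theorem delta_same (i : ℕ) (x y : Gn i) :
    (XX.delta ⟨i, x⟩) (⟨i, y⟩ : XX.Pt) = if y = x then 1 else 0 := by
  rw [delta_apply]
  by_cases h : y = x
  · subst h; simp
  · rw [if_neg h, if_neg]
    intro h'
    exact h (eq_of_heq (Sigma.mk.inj h').2)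

open Classical in
theorem En_lap (i : ℕ) (z x : Gn i) :
    En i lap z x = ((lapM (cg (Sn i) (Sn_inv i) (bn i)) z x : ℝ) : ℂ) := by
  unfold En lapM
  rw [lap_apply, Complex.ofReal_sum]
  refine Finset.sum_congr rfl (fun y _ => ?_)
  rw [delta_same, delta_same]
  split_ifs <;> simp

theorem lapM_symm {G : Type} [Fintype G] [DecidableEq G] (Gr : SimpleGraph G) (z x : G) :
    lapM Gr z x = lapM Gr x z := by
  classical
  rw [lapM_eq, lapM_eq]
  by_cases h : z = x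
  · subst h; rfl
  · rw [if_neg h, if_neg (Ne.symm h)]
    by_cases h2 : Gr.Adj z x
    · rw [if_pos h2, if_pos h2.symm]
    · rw [if_neg h2, if_neg (fun h3 => h2 h3.symm)]

theorem En_finProp (i : ℕ) (S : XX.roe) (R : ℕ)
    (hR : ∀ p q : XX.Pt, (R : ℕ∞) ≤ XX.edist p q → (S.1 (XX.delta p)) q = 0) (z x : Gn i)
    (h : En i S z x ≠ 0) : ∃ p : (cg (Sn i) (Sn_inv i) (bn i)).Walk z x, p.length ≤ R := by
  have h1 : ¬ ((R : ℕ∞) ≤ XX.edist ⟨i, x⟩ ⟨i, z⟩) := fun h2 => h (hR _ _ h2)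
  rw [XX.edist_comm, XX.edist_same] at h1
  push Not at h1
  have h1' : (cg (Sn i) (Sn_inv i) (bn i)).edist z x < (R : ℕ∞) := h1
  have hne : (cg (Sn i) (Sn_inv i) (bn i)).edist z x ≠ ⊤ := ne_top_of_lt h1'
  obtain ⟨p, hp⟩ := SimpleGraph.exists_walk_of_edist_ne_top hne
  refine ⟨p, ?_⟩
  rw [← hp] at h1'
  exact_mod_cast h1'.le

theorem lap_not_sos {c : ℝ} (hc : 0 < c) : ¬ XX.IsSumOfSquares (lap ^ 2 - (c : ℂ) • lap) := by
  rintro ⟨n, ξ, h⟩
  have hfp : ∀ k, ∃ R : ℕ, ∀ p q : XX.Pt, (R : ℕ∞) ≤ XX.edist p q →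
      ((ξ k).1 (XX.delta p)) q = 0 := fun k => (XX.finProp_iff (ξ k).1).1 (ξ k).2
  choose Rk hRk using hfp
  obtain ⟨R, hRdef⟩ : ∃ R : ℕ, R = 1 + ∑ k, Rk k := ⟨_, rfl⟩
  have hR1 : 1 ≤ R := by omega
  have hR : ∀ k, ∀ p q : XX.Pt, (R : ℕ∞) ≤ XX.edist p q → ((ξ k).1 (XX.delta p)) q = 0 := by
    intro k p q hpq
    apply hRk k
    refine le_trans ?_ hpq
    have : Rk k ≤ R := by
      rw [hRdef]
      exact le_trans (Finset.single_le_sum (fun _ _ => Nat.zero_le _) (Finset.mem_univ k))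
        (Nat.le_add_left _ _)
    exact_mod_cast this
  obtain ⟨m, hm⟩ := exists_nat_gt (4 / c)
  obtain ⟨i, hi⟩ : ∃ i : ℕ, i = 13 ^ (6 * R) + m := ⟨_, rfl⟩
  have hb : bn i ∉ ball (Sn i) (6 * R) := bn_spec i (6 * R) (by omega)
  have key := fin_main (Sn_inv i) (one_notMem_Sn i) hR1 hb (closure_Sn i) hc.le
    (fun k z x => En i (ξ k) z x) (fun k z x hne => En_finProp i (ξ k) R (hR k) z x hne) (by
      intro x y
      have h2 : En i (lap ^ 2 - (c : ℂ) • lap) x y = En i (∑ k, star (ξ k) * ξ k) x y := by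
        rw [h]
      rw [En_sub, En_smul, pow_two, En_mul, En_sum] at h2
      simp only [En_mul, En_star, En_lap] at h2
      rw [← h2]
      push_cast
      congr 1
      refine Finset.sum_congr rfl (fun z _ => ?_)
      rw [lapM_symm _ z x])
  have hcard : ((i + 14 : ℕ) : ℝ) ≤ Fintype.card (Gn i) := by exact_mod_cast card_Gn i
  have h4 : 4 < c * m := by
    rw [div_lt_iff₀ hc] at hm
    linarith
  have h5 : (m : ℝ) ≤ Fintype.card (Gn i) := by
    refine le_trans ?_ hcard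
    have : m ≤ i + 14 := by
      rw [hi, add_assoc, add_comm, add_assoc]
      exact Nat.le_add_right _ _
    exact_mod_cast this
  have h6 : c * m ≤ c * Fintype.card (Gn i) := mul_le_mul_of_nonneg_left h5 hc.le
  linarith

end

end Pool.Agent.Work.MP_99d66e_al
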