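import Pool.Agent.Work.MP_99d66e_al.Ineq

set_option autoImplicit false

namespace Pool.Agent.Work.MP_99d66e_al

section gap

variable {B : Type*} [CStarAlgebra B] [PartialOrder B] [StarOrderedRing B]

theorem spec_real {t : B} (ht : 0 ≤ t) {c : ℝ} (h : 0 ≤ t * t - c • t) :
    ∀ x ∈ spectrum ℝ t, x = 0 ∨ c ≤ x := by
  intro x hx
  have hsa : IsSelfAdjoint t := IsSelfAdjoint.of_nonneg ht
  have hx0 : 0 ≤ x := spectrum_nonneg_of_nonneg ht hx
  have h1 : t * t - c • t = cfc (fun x : ℝ => x * x - c * x) t := by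
    rw [cfc_sub _ _ t, cfc_mul _ _ t, cfc_const_mul _ _ t, cfc_id' ℝ t]
  have h2 : x * x - c * x ∈ spectrum ℝ (t * t - c • t) := by
    rw [h1, cfc_map_spectrum _ t]
    exact ⟨x, hx, rfl⟩
  have h3 : 0 ≤ x * x - c * x := spectrum_nonneg_of_nonneg h h2
  by_cases hx1 : x = 0
  · exact Or.inl hx1
  · right
    have hpos : 0 < x := lt_of_le_of_ne hx0 (Ne.symm hx1)
    have h4 : c * x ≤ x * x := by linarith
    exact le_of_mul_le_mul_right h4 hpos

theorem spec_complex {t : B} (ht : 0 ≤ t) {c : ℝ} (h : 0 ≤ t * t - c • t) :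
    spectrum ℂ t ⊆ {z | z = 0 ∨ ∃ r : ℝ, c ≤ r ∧ z = (r : ℂ)} := by
  intro z hz
  have hsa : IsSelfAdjoint t := IsSelfAdjoint.of_nonneg ht
  have h1 : z = (z.re : ℂ) := hsa.mem_spectrum_eq_re hz
  have h2 : z.re ∈ spectrum ℝ t := by
    rw [h1] at hz
    exact (spectrum.algebraMap_mem_iff ℂ).1 hz
  rcases spec_real ht h _ h2 with h3 | h3
  · left; rw [h1, h3]; simp
  · right; exact ⟨z.re, h3, h1⟩

theorem gap_add {a b : B} (ha : 0 ≤ a) (hb : 0 ≤ b) {c : ℝ} (hc : 0 < c)
    (h : 0 ≤ a * a - c • a)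
    (hP : ∀ P : B, star P = P → P * P = P → a * P = 0 → b * P = 0) :
    0 ≤ (a + b) * (a + b) - c • (a + b) := by
  have hsa : IsSelfAdjoint a := IsSelfAdjoint.of_nonneg ha
  have hspec := spec_real ha h
  obtain ⟨g, hg⟩ : ∃ g : ℝ → ℝ, g = fun x => max 0 (1 - x / c) := ⟨_, rfl⟩
  have hgc : Continuous g := by rw [hg]; fun_prop
  have g0 : g 0 = 1 := by rw [hg]; simp
  have g1 : ∀ x, c ≤ x → g x = 0 := by
    intro x hx
    rw [hg]
    have : 1 ≤ x / c := (one_le_div hc).2 hx
    simp only [max_eq_left_iff]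
    linarith
  obtain ⟨P, hPdef⟩ : ∃ P : B, P = cfc g a := ⟨_, rfl⟩
  have sP : star P = P := by rw [hPdef]; exact (cfc_predicate g a)
  have PP : P * P = P := by
    rw [hPdef, ← cfc_mul g g a hgc.continuousOn hgc.continuousOn]
    apply cfc_congr
    intro x hx
    rcases hspec x hx with h | h
    · subst h; simp [g0]
    · simp [g1 x h]
  have aP : a * P = 0 := by
    have : a * P = cfc (fun x => x * g x) a := by
      rw [cfc_mul (fun x => x) g a (by fun_prop) hgc.continuousOn, cfc_id' ℝ a, hPdef]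
    rw [this]
    have h2 : cfc (fun x => x * g x) a = cfc (fun _ => (0 : ℝ)) a := by
      apply cfc_congr
      intro x hx
      rcases hspec x hx with h | h
      · subst h; simp
      · simp [g1 x h]
    rw [h2]; simp
  have bP := hP P sP PP aP
  have hge : 0 ≤ a - c • (1 - P) := by
    have : a - c • (1 - P) = cfc (fun x => x - c * (1 - g x)) a := by
      rw [cfc_sub (fun x => x) (fun x => c * (1 - g x)) a (by fun_prop)
        (by fun_prop), cfc_id' ℝ a, cfc_const_mul c (fun x => 1 - g x) a (by fun_prop),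
        cfc_sub (fun _ => 1) g a (by fun_prop) hgc.continuousOn, hPdef, cfc_const_one ℝ a]
    rw [this]
    apply cfc_nonneg
    intro x hx
    rcases hspec x hx with h | h
    · subst h; simp [g0]
    · simp only [g1 x h]; linarith
  obtain ⟨t, ht⟩ : ∃ t : B, t = a + b := ⟨_, rfl⟩
  obtain ⟨r, hr⟩ : ∃ r : B, r = t - c • (1 - P) := ⟨_, rfl⟩
  have hr0 : 0 ≤ r := by
    have : r = (a - c • (1 - P)) + b := by rw [hr, ht]; abel
    rw [this]; exact add_nonneg hge hb
  have sr : star r = r := (IsSelfAdjoint.of_nonneg hr0)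
  have tP : t * P = 0 := by rw [ht, add_mul, aP, bP, add_zero]
  have rP : r * P = 0 := by
    rw [hr, sub_mul, tP, smul_mul_assoc, sub_mul, one_mul, PP, sub_self, smul_zero, sub_zero]
  have Pr : P * r = 0 := by
    have := congrArg star rP
    rwa [star_mul, sP, sr, star_zero] at this
  have htr : t = r + c • (1 - P) := by rw [hr]; abel
  have hfin : t * t - c • t = star r * r + c • r := by
    rw [sr, htr]
    have h1 : (1 - P) * (1 - P) = 1 - P := by
      calc (1 - P) * (1 - P) = 1 - P - P + P * P := by noncomm_ring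
        _ = _ := by rw [PP]; abel
    have h2 : (1 - P) * r = r := by rw [sub_mul, one_mul, Pr, sub_zero]
    have h3 : r * (1 - P) = r := by rw [mul_sub, mul_one, rP, sub_zero]
    have h4 : (r + c • (1 - P)) * (r + c • (1 - P)) = r * r + c • r + c • r + (c * c) • (1 - P) := by
      rw [add_mul, mul_add, mul_add, mul_smul_comm, h3, smul_mul_assoc, h2, smul_mul_smul_comm, h1]
      abel
    rw [h4]
    module
  rw [← ht, hfin]
  exact add_nonneg (star_mul_self_nonneg _) (smul_nonneg hc.le hr0)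

end gap

end Pool.Agent.Work.MP_99d66e_al
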