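import Pool.Agent.Work.MP_99d66e_al.Lap
import Pool.Agent.Work.MP_99d66e_al.Gap

set_option autoImplicit false

namespace Pool.Agent.Work.MP_99d66e_al

open BoxSpace

noncomputable section

/-- a section of the components of index at least `n` -/
def sec (c : ∀ i, Gn i) (n : ℕ) : Set XX.Pt := {p | n ≤ p.1 ∧ p.2 = c p.1}

/-- the components of index at least `n` -/
def cmp (n : ℕ) : Set XX.Pt := {p | n ≤ p.1}

theorem mem_sec (c : ∀ i, Gn i) (n i : ℕ) (g : Gn i) :
    (⟨i, g⟩ : XX.Pt) ∈ sec c n ↔ n ≤ i ∧ g = c i := Iff.rfl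

theorem mem_cmp (n i : ℕ) (g : Gn i) :
    (⟨i, g⟩ : XX.Pt) ∈ cmp n ↔ n ≤ i := Iff.rfl

/-- auxiliary condition -/
def trsAux (c : ∀ i, Gn i) (k i : ℕ) (g : Gn i) : Prop := g * rho i (mw ^ k) = c i

/-- the translates of a section -/
def trs (c : ∀ i, Gn i) (n : ℕ) : Set XX.Pt :=
  {p | n ≤ p.1 ∧ ∃ k, k < n ∧ trsAux c k p.1 p.2}

theorem mem_trs (c : ∀ i, Gn i) (n i : ℕ) (g : Gn i) :
    (⟨i, g⟩ : XX.Pt) ∈ trs c n ↔ n ≤ i ∧ ∃ k, k < n ∧ g * rho i (mw ^ k) = c i := Iff.rfl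

theorem sum_translates (c : ∀ i, Gn i) (n : ℕ) :
    ∑ k ∈ Finset.range n, U (mw ^ k) * D (sec c n) * U (mw ^ k)⁻¹ = D (trs c n) := by
  classical
  apply roe_ext
  intro ξ i g
  rw [sum_apply', D_apply, mem_trs]
  have h : ∀ k, ((U (mw ^ k) * D (sec c n) * U (mw ^ k)⁻¹).1 ξ) (⟨i, g⟩ : XX.Pt)
      = if n ≤ i ∧ g * rho i (mw ^ k) = c i then ξ (⟨i, g⟩ : XX.Pt) else 0 := by
    intro k
    rw [mul_apply', mul_apply', U_apply, D_apply, mem_sec, U_apply, map_inv,
      mul_inv_cancel_right]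
    split_ifs <;> rfl
  simp only [h]
  by_cases hn : n ≤ i
  · by_cases hk : ∃ k, k < n ∧ g * rho i (mw ^ k) = c i
    · rw [if_pos ⟨hn, hk⟩]
      obtain ⟨k, hk1, hk2⟩ := hk
      rw [Finset.sum_eq_single k]
      · rw [if_pos ⟨hn, hk2⟩]
      · intro l hl hlk
        rw [if_neg]
        rintro ⟨-, hl2⟩
        apply hlk
        have h3 : rho i (mw ^ l) = rho i (mw ^ k) := mul_left_cancel (hl2.trans hk2.symm)
        rw [map_pow, map_pow] at h3
        rw [Finset.mem_range] at hl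
        exact rho_mw_inj i (by omega) (by omega) h3
      · intro h0
        exact absurd (Finset.mem_range.2 hk1) h0
    · rw [if_neg (fun h => hk h.2)]
      apply Finset.sum_eq_zero
      intro k hk1
      rw [if_neg]
      rintro ⟨-, h2⟩
      exact hk ⟨k, Finset.mem_range.1 hk1, h2⟩
  · rw [if_neg (fun h => hn h.1)]
    apply Finset.sum_eq_zero
    intro k _
    rw [if_neg (fun h => hn h.1)]

theorem flip_zero : (1 - Ut) * D (cmp 0) = 1 - Ut := by
  classical
  apply roe_ext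
  intro ξ i g
  rw [mul_apply', sub_apply', sub_apply', one_apply', one_apply', Ut_apply, Ut_apply, D_apply,
    D_apply, mem_cmp, mem_cmp, if_pos (Nat.zero_le i), if_pos (Nat.zero_le i)]

theorem flip_succ (n : ℕ) (w : FreeGroup (Fin 3)) (hw : rho n w = bn n) :
    (1 - Ut) * D (cmp n) = (1 - Ut) * D (cmp (n + 1))
      + D {(⟨n, (1 : Gn n)⟩ : XX.Pt)} * (1 - U w)
      + D {(⟨n, bn n⟩ : XX.Pt)} * (1 - U w⁻¹) := by
  classical
  apply roe_ext
  intro ξ i g
  simp only [mul_apply', add_apply', sub_apply', one_apply', Ut_apply, U_apply, D_apply, mem_cmp]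
  by_cases hi : i = n
  · subst hi
    have h1 : ¬ (i + 1 ≤ i) := by omega
    rw [if_pos (le_refl i), if_pos (le_refl i), if_neg h1, if_neg h1]
    by_cases hg1 : g = 1
    · subst hg1
      have h2 : ¬ ((⟨i, (1 : Gn i)⟩ : XX.Pt) ∈ ({(⟨i, bn i⟩ : XX.Pt)} : Set XX.Pt)) := by
        intro h
        have h3 : (1 : Gn i) = bn i := eq_of_heq (Sigma.mk.inj (Set.mem_singleton_iff.1 h)).2
        exact bn_ne_one i h3.symm
      rw [if_pos (Set.mem_singleton _), if_neg h2, hw, one_mul, Equiv.swap_apply_left]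
      ring
    · have h2 : ¬ ((⟨i, g⟩ : XX.Pt) ∈ ({(⟨i, (1 : Gn i)⟩ : XX.Pt)} : Set XX.Pt)) := by
        intro h
        exact hg1 (eq_of_heq (Sigma.mk.inj (Set.mem_singleton_iff.1 h)).2)
      rw [if_neg h2]
      by_cases hgb : g = bn i
      · subst hgb
        rw [if_pos (Set.mem_singleton _), map_inv, hw, mul_inv_cancel, Equiv.swap_apply_right]
        ring
      · have h3 : ¬ ((⟨i, g⟩ : XX.Pt) ∈ ({(⟨i, bn i⟩ : XX.Pt)} : Set XX.Pt)) := by
          intro h
          exact hgb (eq_of_heq (Sigma.mk.inj (Set.mem_singleton_iff.1 h)).2)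
        rw [if_neg h3, Equiv.swap_apply_of_ne_of_ne hg1 hgb]
        ring
  · have h2 : ¬ ((⟨i, g⟩ : XX.Pt) ∈ ({(⟨n, (1 : Gn n)⟩ : XX.Pt)} : Set XX.Pt)) := by
      intro h
      exact hi (Sigma.mk.inj (Set.mem_singleton_iff.1 h)).1
    have h3 : ¬ ((⟨i, g⟩ : XX.Pt) ∈ ({(⟨n, bn n⟩ : XX.Pt)} : Set XX.Pt)) := by
      intro h
      exact hi (Sigma.mk.inj (Set.mem_singleton_iff.1 h)).1
    rw [if_neg h2, if_neg h3]
    by_cases hn : n ≤ i
    · have hn' : n + 1 ≤ i := by omega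
      rw [if_pos hn, if_pos hn, if_pos hn', if_pos hn']
      ring
    · have hn' : ¬ (n + 1 ≤ i) := by omega
      rw [if_neg hn, if_neg hn, if_neg hn', if_neg hn']
      ring

theorem flip_sec (n : ℕ) :
    (1 - Ut) * D (cmp n) = (1 - Ut) * (D (sec (fun _ => 1) n) + D (sec bn n)) := by
  classical
  apply roe_ext
  intro ξ i g
  simp only [mul_apply', sub_apply', one_apply', Ut_apply, add_apply', D_apply, mem_cmp, mem_sec]
  by_cases hn : n ≤ i
  · by_cases hg1 : g = 1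
    · subst hg1
      rw [Equiv.swap_apply_left]
      simp [hn, bn_ne_one i, (bn_ne_one i).symm]
    · by_cases hgb : g = bn i
      · subst hgb
        rw [Equiv.swap_apply_right]
        simp [hn, bn_ne_one i, (bn_ne_one i).symm]
      · rw [Equiv.swap_apply_of_ne_of_ne hg1 hgb]
        simp
  · simp [hn]

section cstar

variable {B : Type} [CStarAlgebra B] (j : XX.roe →⋆ₐ[ℂ] B)

theorem proj_norm_le {p : B} (hs : star p = p) (hp : p * p = p) : ‖p‖ ≤ 1 := by
  have h := CStarRing.norm_star_mul_self (x := p)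
  rw [hs, hp] at h
  by_cases h0 : ‖p‖ = 0
  · rw [h0]; norm_num
  · have : ‖p‖ = 1 := by
      have h2 : ‖p‖ * 1 = ‖p‖ * ‖p‖ := by rw [mul_one]; exact h
      exact (mul_left_cancel₀ h0 h2).symm
    rw [this]

theorem ju_unit (w : FreeGroup (Fin 3)) : star (j (U w)) * j (U w) = 1 := by
  rw [← map_star, ← map_mul, U_star, U_mul, inv_mul_cancel, U_one, map_one]

theorem ju_five (l : Fin 3) : j (U (FreeGroup.of l)) ^ 5 = 1 := by
  rw [← map_pow, U_pow, U_congr (v := FreeGroup.of l ^ 5) (w := 1), U_one, map_one]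
  intro i
  rw [map_pow, rho_pow_five, map_one]

theorem pairData_j (l : Fin 3) : PairData (avg (j (U (FreeGroup.of l))))
    (avg (j (U (FreeGroup.of (l + 1)))))
    (avg (j (U (cmt (FreeGroup.of l) (FreeGroup.of (l + 1)))))) := by
  refine pairData_of_unitary (ju_five j l) (ju_five j (l + 1)) (ju_unit j _) (ju_unit j _)
    (ju_unit j _) ?_ ?_ ?_
  · have e : FreeGroup.of l * FreeGroup.of (l + 1) = cmt (FreeGroup.of l) (FreeGroup.of (l + 1))
        * (FreeGroup.of (l + 1) * FreeGroup.of l) := by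
      unfold cmt
      group
    rw [← map_mul, ← map_mul, ← map_mul, U_mul, U_mul, U_mul, e]
  · rw [← map_mul, ← map_mul, U_mul, U_mul, U_congr (fun i => rho_comm i l)]
  · rw [← map_mul, ← map_mul, U_mul, U_mul, U_congr (fun i => rho_comm' i l)]

theorem five_avg (x : B) : (5 : ℝ) • avg x = 1 + x + x ^ 2 + x ^ 3 + x ^ 4 := by
  unfold avg
  rw [smul_smul]
  norm_num [Finset.sum_range_succ]

theorem j_lapA : j lapA = (5 : ℝ) • (3 - avg (j (U (FreeGroup.of 0)))
    - avg (j (U (FreeGroup.of 1))) - avg (j (U (FreeGroup.of 2)))) := by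
  have h0 : ∀ (l : Fin 3) (k : Fin 4), j (1 - U (FreeGroup.of l ^ (k.val + 1)))
      = 1 - j (U (FreeGroup.of l)) ^ (k.val + 1) := by
    intro l k
    rw [map_sub, map_one, ← U_pow, map_pow]
  unfold lapA
  rw [map_sum, Fintype.sum_prod_type]
  simp only [h0]
  rw [smul_sub, smul_sub, smul_sub, five_avg, five_avg, five_avg]
  have h3 : (5 : ℝ) • (3 : B) = (15 : ℕ) • (1 : B) := by
    rw [Algebra.smul_def, map_ofNat]; norm_num
  rw [h3, Fin.sum_univ_three]
  generalize j (U (FreeGroup.of 0)) = x0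
  generalize j (U (FreeGroup.of 1)) = x1
  generalize j (U (FreeGroup.of 2)) = x2
  simp only [Fin.sum_univ_four]
  show 1 - x0 ^ 1 + (1 - x0 ^ 2) + (1 - x0 ^ 3) + (1 - x0 ^ 4)
    + (1 - x1 ^ 1 + (1 - x1 ^ 2) + (1 - x1 ^ 3) + (1 - x1 ^ 4))
    + (1 - x2 ^ 1 + (1 - x2 ^ 2) + (1 - x2 ^ 3) + (1 - x2 ^ 4)) = _
  rw [pow_one, pow_one, pow_one]
  abel

end cstar

section main

variable {B : Type} [CStarAlgebra B] [PartialOrder B] [StarOrderedRing B] (j : XX.roe →⋆ₐ[ℂ] B)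

theorem proj_nonneg {p : B} (hs : star p = p) (hp : p * p = p) : 0 ≤ p := by
  have := star_mul_self_nonneg p
  rwa [hs, hp] at this

theorem avg_facts (l : Fin 3) : star (avg (j (U (FreeGroup.of l)))) = avg (j (U (FreeGroup.of l))) ∧
    avg (j (U (FreeGroup.of l))) * avg (j (U (FreeGroup.of l))) = avg (j (U (FreeGroup.of l))) :=
  ⟨(pairData_j j l).sP, (pairData_j j l).PP⟩

theorem one_sub_proj {p : B} (hs : star p = p) (hp : p * p = p) :
    star (1 - p) = 1 - p ∧ (1 - p) * (1 - p) = 1 - p := by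
  constructor
  · rw [star_sub, star_one, hs]
  · rw [sub_mul, mul_sub, mul_sub, one_mul, one_mul, mul_one, hp, sub_self, sub_zero]

theorem lapA_nonneg : 0 ≤ j lapA := by
  rw [j_lapA]
  have h : ∀ l : Fin 3, 0 ≤ 1 - avg (j (U (FreeGroup.of l))) := by
    intro l
    obtain ⟨h1, h2⟩ := avg_facts j l
    obtain ⟨h3, h4⟩ := one_sub_proj h1 h2
    exact proj_nonneg h3 h4
  have e : (3 : B) - avg (j (U (FreeGroup.of 0)))
    - avg (j (U (FreeGroup.of 1))) - avg (j (U (FreeGroup.of 2)))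
      = (1 - avg (j (U (FreeGroup.of 0)))) + (1 - avg (j (U (FreeGroup.of 1))))
        + (1 - avg (j (U (FreeGroup.of 2)))) := by
    have : (3 : B) = 1 + 1 + 1 := by norm_num
    rw [this]; abel
  rw [e]
  exact smul_nonneg (by norm_num) (add_nonneg (add_nonneg (h 0) (h 1)) (h 2))

theorem flip_nonneg : 0 ≤ j (1 - Ut) := by
  have h1 : star (1 - Ut) * (1 - Ut) = (2 : ℂ) • (1 - Ut) := by
    rw [star_sub, star_one, Ut_star]
    rw [sub_mul, mul_sub, mul_sub, one_mul, one_mul, mul_one, Ut_mul, two_smul]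
    abel
  have h2 : j (1 - Ut) = (2⁻¹ : ℝ) • (star (j (1 - Ut)) * j (1 - Ut)) := by
    rw [← map_star, ← map_mul, h1, map_smul, ← Complex.coe_smul, smul_smul]
    norm_num
  rw [h2]
  exact smul_nonneg (by norm_num) (star_mul_self_nonneg _)

theorem lapA_gap {ε : ℝ} (hε0 : 0 < ε) (hε1 : ε < 1) (hε : ε * ε = 5⁻¹) :
    0 ≤ j lapA * j lapA - (5 * (1 - 2 * ε)) • j lapA := by
  have h := triple_ineq (pairData_j j 0) (pairData_j j 1) (pairData_j j 2) hε0 hε1 hε
  have h2 : (0 : B) ≤ (25 : ℝ) • ((3 - avg (j (U (FreeGroup.of 0)))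
    - avg (j (U (FreeGroup.of 1))) - avg (j (U (FreeGroup.of 2))))
    * (3 - avg (j (U (FreeGroup.of 0)))
    - avg (j (U (FreeGroup.of 1))) - avg (j (U (FreeGroup.of 2))))
    - (1 - 2 * ε) • (3 - avg (j (U (FreeGroup.of 0)))
    - avg (j (U (FreeGroup.of 1))) - avg (j (U (FreeGroup.of 2))))) :=
    smul_nonneg (by norm_num) h
  rw [j_lapA]
  clear h
  revert h2
  generalize (3 - avg (j (U (FreeGroup.of 0)))
    - avg (j (U (FreeGroup.of 1))) - avg (j (U (FreeGroup.of 2)))) = T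
  intro h2
  have e : (25 : ℝ) • (T * T - (1 - 2 * ε) • T)
      = ((5 : ℝ) • T) * ((5 : ℝ) • T) - (5 * (1 - 2 * ε)) • ((5 : ℝ) • T) := by
    rw [smul_mul_assoc, mul_smul_comm, smul_smul, smul_smul, smul_sub, smul_smul]
    congr 2 <;> ring
  rwa [e] at h2

theorem kernel_aux {Q0 Q1 Q2 P : B} (hs : star P = P) (h0 : star Q0 = Q0 ∧ Q0 * Q0 = Q0)
    (h1 : star Q1 = Q1 ∧ Q1 * Q1 = Q1) (h2 : star Q2 = Q2 ∧ Q2 * Q2 = Q2)
    (h : (Q0 + Q1 + Q2) * P = 0) : Q0 * P = 0 ∧ Q1 * P = 0 ∧ Q2 * P = 0 := by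
  have e : ∀ Q : B, star Q = Q ∧ Q * Q = Q → star (Q * P) * (Q * P) = P * (Q * P) := by
    intro Q hQ
    rw [star_mul, hs, hQ.1, mul_assoc, ← mul_assoc Q Q P, hQ.2]
  have h3 : star (Q0 * P) * (Q0 * P) + star (Q1 * P) * (Q1 * P)
      + star (Q2 * P) * (Q2 * P) = 0 := by
    rw [e _ h0, e _ h1, e _ h2, ← mul_add, ← mul_add, ← add_mul, ← add_mul, h, mul_zero]
  have n0 := star_mul_self_nonneg (Q0 * P)
  have n1 := star_mul_self_nonneg (Q1 * P)
  have n2 := star_mul_self_nonneg (Q2 * P)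
  have z2 : star (Q2 * P) * (Q2 * P) = 0 := by
    refine le_antisymm ?_ n2
    rw [← h3]
    exact le_add_of_nonneg_left (add_nonneg n0 n1)
  have z1 : star (Q1 * P) * (Q1 * P) = 0 := by
    refine le_antisymm ?_ n1
    rw [← h3, z2, add_zero]
    exact le_add_of_nonneg_left n0
  have z0 : star (Q0 * P) * (Q0 * P) = 0 := by
    rwa [z1, z2, add_zero, add_zero] at h3
  exact ⟨(CStarRing.star_mul_self_eq_zero_iff _).1 z0, (CStarRing.star_mul_self_eq_zero_iff _).1 z1,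
    (CStarRing.star_mul_self_eq_zero_iff _).1 z2⟩

theorem lapA_kernel {P : B} (hs : star P = P) (hP : j lapA * P = 0) (w : FreeGroup (Fin 3)) :
    j (U w) * P = P := by
  rw [j_lapA, smul_mul_assoc] at hP
  have h1 := (smul_eq_zero.1 hP).resolve_left (by norm_num)
  have hQf : ∀ l, star (1 - avg (j (U (FreeGroup.of l)))) = 1 - avg (j (U (FreeGroup.of l))) ∧
      (1 - avg (j (U (FreeGroup.of l)))) * (1 - avg (j (U (FreeGroup.of l))))
        = 1 - avg (j (U (FreeGroup.of l))) := by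
    intro l
    obtain ⟨h1, h2⟩ := avg_facts j l
    exact one_sub_proj h1 h2
  have h2 : ((1 - avg (j (U (FreeGroup.of 0)))) + (1 - avg (j (U (FreeGroup.of 1))))
      + (1 - avg (j (U (FreeGroup.of 2))))) * P = 0 := by
    rw [← h1]
    congr 1
    have : (3 : B) = 1 + 1 + 1 := by norm_num
    rw [this]
    abel
  obtain ⟨k0, k1, k2⟩ := kernel_aux hs (hQf 0) (hQf 1) (hQf 2) h2
  have hz : ∀ l, (1 - avg (j (U (FreeGroup.of l)))) * P = 0 := by
    intro l
    fin_cases l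
    · exact k0
    · exact k1
    · exact k2
  have hfix : ∀ l, j (U (FreeGroup.of l)) * P = P := by
    intro l
    have h4 : avg (j (U (FreeGroup.of l))) * P = P := by
      have := hz l
      rw [sub_mul, one_mul] at this
      exact (sub_eq_zero.1 this).symm
    calc j (U (FreeGroup.of l)) * P
        = j (U (FreeGroup.of l)) * (avg (j (U (FreeGroup.of l))) * P) := by rw [h4]
      _ = (j (U (FreeGroup.of l)) * avg (j (U (FreeGroup.of l)))) * P := by rw [mul_assoc]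
      _ = P := by rw [mul_avg (ju_five j l), h4]
  induction w using FreeGroup.induction_on with
  | C1 => rw [U_one, map_one, one_mul]
  | of l => exact hfix l
  | inv_of l h =>
    calc j (U (FreeGroup.of l)⁻¹) * P
        = j (U (FreeGroup.of l)⁻¹) * (j (U (FreeGroup.of l)) * P) := by rw [h]
      _ = P := by
        rw [← mul_assoc, ← map_mul, U_mul, inv_mul_cancel, U_one, map_one, one_mul]
  | mul x y hx hy => rw [← U_mul, map_mul, mul_assoc, hy, hx]

theorem section_small {P : B} (hs : star P = P) (hPP : P * P = P)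
    (hU : ∀ w, j (U w) * P = P) (c : ∀ i, Gn i) (n : ℕ) :
    (n : ℝ) * (‖j (D (sec c n)) * P‖ * ‖j (D (sec c n)) * P‖) ≤ 1 := by
  have hU' : ∀ w, P * j (U w) = P := by
    intro w
    have := congrArg star (hU w⁻¹)
    rw [star_mul, hs, ← map_star, U_star, inv_inv] at this
    exact this
  have h1 : P * j (D (trs c n)) * P = (n : ℝ) • (P * j (D (sec c n)) * P) := by
    rw [← sum_translates, map_sum, Finset.mul_sum, Finset.sum_mul]
    have e : ∀ k ∈ Finset.range n, P * j (U (mw ^ k) * D (sec c n) * U (mw ^ k)⁻¹) * P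
        = P * j (D (sec c n)) * P := by
      intro k _
      rw [map_mul, map_mul]
      calc P * (j (U (mw ^ k)) * j (D (sec c n)) * j (U (mw ^ k)⁻¹)) * P
          = (P * j (U (mw ^ k))) * j (D (sec c n)) * (j (U (mw ^ k)⁻¹) * P) := by
            simp only [mul_assoc]
        _ = _ := by rw [hU', hU]
    rw [Finset.sum_congr rfl e, Finset.sum_const, Finset.card_range, ← Nat.cast_smul_eq_nsmul ℝ]
  have h2 : ‖P * j (D (trs c n)) * P‖ ≤ 1 := by
    have a1 : ‖P‖ ≤ 1 := proj_norm_le hs hPP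
    have a2 : ‖j (D (trs c n))‖ ≤ 1 := by
      apply proj_norm_le
      · rw [← map_star, D_star]
      · rw [← map_mul, D_mul_self]
    calc ‖P * j (D (trs c n)) * P‖ ≤ ‖P * j (D (trs c n))‖ * ‖P‖ := norm_mul_le _ _
      _ ≤ (‖P‖ * ‖j (D (trs c n))‖) * ‖P‖ := by gcongr; exact norm_mul_le _ _
      _ ≤ (1 * 1) * 1 := by gcongr
      _ = 1 := by norm_num
  have h3 : ‖j (D (sec c n)) * P‖ * ‖j (D (sec c n)) * P‖ = ‖P * j (D (sec c n)) * P‖ := by
    rw [← CStarRing.norm_star_mul_self, star_mul, hs, ← map_star, D_star]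
    congr 1
    calc P * j (D (sec c n)) * (j (D (sec c n)) * P)
        = P * (j (D (sec c n)) * j (D (sec c n))) * P := by simp only [mul_assoc]
      _ = _ := by rw [← map_mul, D_mul_self]
  rw [h3]
  rw [h1, norm_smul, Real.norm_natCast] at h2
  exact h2

theorem flip_kernel {P : B} (hs : star P = P) (hPP : P * P = P) (hP : j lapA * P = 0) :
    j (1 - Ut) * P = 0 := by
  have hU := lapA_kernel j hs hP
  have hker : ∀ (A : XX.roe) (w : FreeGroup (Fin 3)), j (A * (1 - U w)) * P = 0 := by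
    intro A w
    rw [map_mul, map_sub, map_one, mul_assoc, sub_mul, one_mul, hU, sub_self, mul_zero]
  have h1 : ∀ n, j (1 - Ut) * P = j ((1 - Ut) * D (cmp n)) * P := by
    intro n
    induction n with
    | zero => rw [flip_zero]
    | succ n ih =>
      obtain ⟨w, hw⟩ := rho_surj n (bn n)
      rw [ih, flip_succ n w hw, map_add, map_add, add_mul, add_mul, hker, hker, add_zero, add_zero]
  by_contra hne
  have hpos : 0 < ‖j (1 - Ut) * P‖ := norm_pos_iff.2 hne
  obtain ⟨δ, hδ⟩ : ∃ δ : ℝ, δ = ‖j (1 - Ut) * P‖ := ⟨_, rfl⟩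
  obtain ⟨K, hK⟩ : ∃ K : ℝ, K = ‖j (1 - Ut)‖ := ⟨_, rfl⟩
  have hK0 : 0 ≤ K := by rw [hK]; exact norm_nonneg _
  rw [← hδ] at hpos
  have h2 : ∀ n : ℕ, (n : ℝ) * (δ * δ) ≤ 4 * (K * K) := by
    intro n
    obtain ⟨x, hx⟩ : ∃ x : ℝ, x = ‖j (D (sec (fun _ => 1) n)) * P‖ := ⟨_, rfl⟩
    obtain ⟨y, hy⟩ : ∃ y : ℝ, y = ‖j (D (sec bn n)) * P‖ := ⟨_, rfl⟩
    have hx1 := section_small j hs hPP hU (fun _ => 1) n
    have hy1 := section_small j hs hPP hU bn n
    rw [← hx] at hx1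
    rw [← hy] at hy1
    have hx0 : 0 ≤ x := by rw [hx]; exact norm_nonneg _
    have hy0 : 0 ≤ y := by rw [hy]; exact norm_nonneg _
    have h3 : δ ≤ K * (x + y) := by
      rw [hδ, h1 n, flip_sec, map_mul, mul_assoc, map_add, add_mul, hK, hx, hy]
      refine le_trans (norm_mul_le _ _) ?_
      gcongr
      exact norm_add_le _ _
    have hn : (0 : ℝ) ≤ n := Nat.cast_nonneg n
    have h4 : δ * δ ≤ (K * (x + y)) * (K * (x + y)) :=
      mul_le_mul h3 h3 hpos.le (mul_nonneg hK0 (add_nonneg hx0 hy0))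
    have h5 : (K * (x + y)) * (K * (x + y)) ≤ (K * K) * (2 * (x * x) + 2 * (y * y)) := by
      have : (x + y) * (x + y) ≤ 2 * (x * x) + 2 * (y * y) := by nlinarith [sq_nonneg (x - y)]
      have hKK : 0 ≤ K * K := mul_nonneg hK0 hK0
      nlinarith [mul_le_mul_of_nonneg_left this hKK]
    calc (n : ℝ) * (δ * δ) ≤ n * ((K * K) * (2 * (x * x) + 2 * (y * y))) :=
          mul_le_mul_of_nonneg_left (h4.trans h5) hn
      _ = (K * K) * (2 * (n * (x * x)) + 2 * (n * (y * y))) := by ring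
      _ ≤ (K * K) * (2 * 1 + 2 * 1) := by
          apply mul_le_mul_of_nonneg_left _ (mul_nonneg hK0 hK0)
          linarith
      _ = 4 * (K * K) := by ring
  obtain ⟨n, hn⟩ := exists_nat_gt (4 * (K * K) / (δ * δ))
  have h6 := h2 n
  rw [div_lt_iff₀ (mul_pos hpos hpos)] at hn
  linarith

theorem lap_gap {ε : ℝ} (hε0 : 0 < ε) (hε1 : 2 * ε < 1) (hε : ε * ε = 5⁻¹) :
    0 ≤ j lap ∧ 0 ≤ j lap * j lap - (5 * (1 - 2 * ε)) • j lap := by
  have e : j lap = j lapA + j (1 - Ut) := by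
    unfold lap
    rw [map_add]
  rw [e]
  refine ⟨add_nonneg (lapA_nonneg j) (flip_nonneg j), ?_⟩
  exact gap_add (lapA_nonneg j) (flip_nonneg j) (by linarith) (lapA_gap j hε0 (by linarith) hε)
    (fun P hs hPP hP => flip_kernel j hs hPP hP)

end main

theorem lap_hasGeometricT : XX.HasGeometricT lap := by
  have h5 : (0 : ℝ) < Real.sqrt 5 := Real.sqrt_pos.2 (by norm_num)
  have hs5 : Real.sqrt 5 * Real.sqrt 5 = 5 := Real.mul_self_sqrt (by norm_num)
  have h2 : 2 < Real.sqrt 5 := by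
    rw [Real.lt_sqrt (by norm_num)]; norm_num
  have hε0 : 0 < (Real.sqrt 5)⁻¹ := inv_pos.2 h5
  have hε1 : 2 * (Real.sqrt 5)⁻¹ < 1 := by
    rw [← div_eq_mul_inv, div_lt_one h5]; exact h2
  have hε : (Real.sqrt 5)⁻¹ * (Real.sqrt 5)⁻¹ = 5⁻¹ := by
    rw [← mul_inv, hs5]
  refine ⟨5 * (1 - 2 * (Real.sqrt 5)⁻¹), by linarith, ?_⟩
  intro B _ j
  let _ := CStarAlgebra.spectralOrder B
  let _ := CStarAlgebra.spectralOrderedRing B
  obtain ⟨h1, h3⟩ := lap_gap j hε0 hε1 hε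
  exact spec_complex h1 h3

end

end Pool.Agent.Work.MP_99d66e_al
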