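import Pool.Agent.Work.MP_99d66e_al.Blocks
import Pool.Agent.Work.MP_99d66e_al.Kazhdan

set_option autoImplicit false

namespace Pool.Agent.Work.MP_99d66e_al

open BoxSpace

theorem reach (i : ℕ) (g x : Gn i) : (cg (Sn i) (Sn_inv i) (bn i)).Reachable x (x * g) := by
  have hg : g ∈ Subgroup.closure (Sn i : Set (Gn i)) := by rw [closure_Sn]; trivial
  induction hg using Subgroup.closure_induction generalizing x with
  | mem t ht => exact (adj_mul x ht).reachable
  | one => rw [mul_one]
  | mul a b _ _ ha hb => rw [← mul_assoc]; exact (ha x).trans (hb (x * a))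
  | inv a _ ha =>
    have := ha (x * a⁻¹)
    rw [inv_mul_cancel_right] at this
    exact this.symm

theorem XX_connected (i : ℕ) : (XX.graph i).Connected := by
  have h : (cg (Sn i) (Sn_inv i) (bn i)).Connected := by
    have : Nonempty (Gn i) := ⟨1⟩
    refine SimpleGraph.Connected.mk ?_
    intro x y
    have := reach i (x⁻¹ * y) x
    rwa [mul_inv_cancel_left] at this
  exact h

/-- The main theorem. -/
theorem main : ∃ (X : BoxSpace) (Δ : X.roe), (∀ i, (X.graph i).Connected) ∧
    X.IsLaplacian (Δ : X.L2 →L[ℂ] X.L2) ∧ X.HasGeometricT Δ ∧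
    ∀ c : ℝ, 0 < c → ¬ X.IsSumOfSquares (Δ ^ 2 - (c : ℂ) • Δ) :=
  ⟨XX, lap, XX_connected, isLaplacian_lap, lap_hasGeometricT, fun _ hc => lap_not_sos hc⟩

end Pool.Agent.Work.MP_99d66e_al
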