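import Pool.Agent.Work.MP_99d66e_al.Base

set_option autoImplicit false

namespace Pool.Agent.Work.MP_99d66e_al

open scoped InnerProductSpace

namespace BoxSpace

variable (X : BoxSpace)

/-- The Hilbert space of square summable functions on `X`. -/
abbrev L2 : Type := lp (fun _ : X.Pt => ℂ) 2

/-- The basis vector at the point `p`. -/
noncomputable def delta (p : X.Pt) : X.L2 := lp.single 2 p (1 : ℂ)

/-- Finite propagation. -/
def FinProp (T : X.L2 →L[ℂ] X.L2) : Prop :=
  ∃ R : ℕ, ∀ p q : X.Pt, (R : ℕ∞) ≤ X.edist p q → (T (X.delta p)) q = 0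

theorem edist_same (i : ℕ) (x y : X.V i) : X.edist ⟨i, x⟩ ⟨i, y⟩ = (X.graph i).edist x y := by
  simp [edist]

theorem edist_ne {p q : X.Pt} (h : p.1 ≠ q.1) : X.edist p q = ⊤ := by
  simp [edist, h]

theorem edist_comm (p q : X.Pt) : X.edist p q = X.edist q p := by
  by_cases h : p.1 = q.1
  · obtain ⟨i, x⟩ := p
    obtain ⟨j, y⟩ := q
    obtain rfl : i = j := h
    rw [edist_same, edist_same, SimpleGraph.edist_comm]
  · rw [edist_ne X h, edist_ne X (Ne.symm h)]

theorem edist_self (p : X.Pt) : X.edist p p = 0 := by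
  obtain ⟨i, x⟩ := p
  rw [edist_same]
  exact SimpleGraph.edist_self

theorem edist_triangle (p q r : X.Pt) : X.edist p r ≤ X.edist p q + X.edist q r := by
  by_cases h : p.1 = q.1
  · by_cases h' : q.1 = r.1
    · obtain ⟨i, x⟩ := p
      obtain ⟨j, y⟩ := q
      obtain ⟨k, z⟩ := r
      obtain rfl : i = j := h
      obtain rfl : i = k := h'
      rw [edist_same, edist_same, edist_same]
      exact SimpleGraph.edist_triangle
    · rw [edist_ne X h', add_top]; exact le_top
  · rw [edist_ne X h, top_add]; exact le_top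

theorem pos_of_ne {p q : X.Pt} (h : p ≠ q) : (1 : ℕ∞) ≤ X.edist p q := by
  rw [Order.one_le_iff_ne_zero]
  intro h0
  apply h
  by_cases h' : p.1 = q.1
  · obtain ⟨i, x⟩ := p
    obtain ⟨j, y⟩ := q
    obtain rfl : i = j := h'
    rw [edist_same, SimpleGraph.edist_eq_zero_iff] at h0
    rw [h0]
  · rw [edist_ne X h'] at h0
    exact absurd h0 (by simp)

theorem inner_delta (ξ : X.L2) (q : X.Pt) : ⟪ξ, X.delta q⟫_ℂ = star (ξ q) := by
  unfold delta
  rw [lp.inner_single_right]
  simp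

theorem inner_delta' (ξ : X.L2) (q : X.Pt) : ⟪X.delta q, ξ⟫_ℂ = ξ q := by
  unfold delta
  rw [lp.inner_single_left]
  simp

/-- A bounded operator is determined by its matrix entries. -/
theorem hasSum_apply (T : X.L2 →L[ℂ] X.L2) (ξ : X.L2) (q : X.Pt) :
    HasSum (fun r => ξ r * (T (X.delta r)) q) ((T ξ) q) := by
  have h1 : HasSum (fun r => lp.single 2 r (ξ r)) ξ := lp.hasSum_single (by norm_num) ξ
  have h2 := (h1.mapL T).mapL (innerSL ℂ (X.delta q))
  simp only [innerSL_apply_apply, inner_delta'] at h2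
  have h3 : (fun r => ξ r * (T (X.delta r)) q) = fun r => (T (lp.single 2 r (ξ r))) q := by
    funext r
    have : (lp.single 2 r (ξ r) : X.L2) = ξ r • X.delta r := by
      unfold delta
      rw [← lp.single_smul]; simp
    rw [this, map_smul]
    simp
  rw [h3]
  exact h2

theorem finProp_iff (T : X.L2 →L[ℂ] X.L2) : X.FinProp T ↔
    ∃ R : ℕ, ∀ p q : X.Pt, (R : ℕ∞) ≤ X.edist p q → (T (X.delta p)) q = 0 := Iff.rfl

theorem finProp_iff' (T : X.L2 →L[ℂ] X.L2) : X.FinProp T ↔
    ∃ R : ℕ, ∀ p q : X.Pt, (R : ℕ∞) ≤ X.edist p q → ⟪T (X.delta p), X.delta q⟫_ℂ = 0 := by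
  unfold FinProp
  simp only [inner_delta, star_eq_zero]

theorem finProp_mul {S T : X.L2 →L[ℂ] X.L2} (hS : X.FinProp S) (hT : X.FinProp T) :
    X.FinProp (S * T) := by
  rw [finProp_iff] at *
  obtain ⟨R, hR⟩ := hS
  obtain ⟨R', hR'⟩ := hT
  refine ⟨R + R', ?_⟩
  intro p q h
  have h1 := X.hasSum_apply S (T (X.delta p)) q
  have h2 : ∀ r, (T (X.delta p)) r * (S (X.delta r)) q = 0 := by
    intro r
    by_cases hr : (R' : ℕ∞) ≤ X.edist p r
    · rw [hR' p r hr, zero_mul]
    · by_cases hr2 : (R : ℕ∞) ≤ X.edist r q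
      · rw [hR r q hr2, mul_zero]
      · exfalso
        push Not at hr hr2
        have h3 := X.edist_triangle p r q
        have h4 : X.edist p r + X.edist r q < (R' : ℕ∞) + (R : ℕ∞) := ENat.add_lt_add hr hr2
        have h5 : ((R + R' : ℕ) : ℕ∞) < (R' : ℕ∞) + (R : ℕ∞) := lt_of_le_of_lt (h.trans h3) h4
        rw [Nat.cast_add, add_comm] at h5
        exact lt_irrefl _ h5
  simp only [h2] at h1
  exact h1.unique hasSum_zero

theorem finProp_star {T : X.L2 →L[ℂ] X.L2} (hT : X.FinProp T) : X.FinProp (star T) := by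
  rw [finProp_iff'] at *
  obtain ⟨R, hR⟩ := hT
  refine ⟨R, ?_⟩
  intro p q h
  rw [ContinuousLinearMap.star_eq_adjoint, ContinuousLinearMap.adjoint_inner_left,
    ← inner_conj_symm, hR q p (by rwa [edist_comm]), map_zero]

theorem finProp_add {S T : X.L2 →L[ℂ] X.L2} (hS : X.FinProp S) (hT : X.FinProp T) :
    X.FinProp (S + T) := by
  rw [finProp_iff'] at *
  obtain ⟨R, hR⟩ := hS
  obtain ⟨R', hR'⟩ := hT
  refine ⟨max R R', ?_⟩
  intro p q h
  rw [add_apply, inner_add_left,
    hR p q (le_trans (by exact_mod_cast le_max_left _ _) h),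
    hR' p q (le_trans (by exact_mod_cast le_max_right _ _) h), add_zero]

theorem finProp_algebraMap (c : ℂ) : X.FinProp (algebraMap ℂ (X.L2 →L[ℂ] X.L2) c) := by
  rw [finProp_iff]
  refine ⟨1, ?_⟩
  intro p q h
  have hne : p ≠ q := by
    rintro rfl
    rw [edist_self] at h
    simp at h
  rw [Algebra.algebraMap_eq_smul_one]
  simp only [smul_apply, one_apply_eq_self, lp.coeFn_smul,
    Pi.smul_apply, smul_eq_mul]
  unfold delta
  rw [lp.single_apply_ne _ _ _ (Ne.symm hne), mul_zero]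

/-- The algebraic uniform Roe algebra: bounded operators of finite propagation. -/
noncomputable def roe : StarSubalgebra ℂ (X.L2 →L[ℂ] X.L2) where
  carrier := {T | X.FinProp T}
  mul_mem' := fun h h' => X.finProp_mul h h'
  add_mem' := fun h h' => X.finProp_add h h'
  algebraMap_mem' := fun c => X.finProp_algebraMap c
  star_mem' := fun h => X.finProp_star h

open Classical in
/-- `T` is the graph Laplacian. -/
def IsLaplacian (T : X.L2 →L[ℂ] X.L2) : Prop :=
  ∀ (ξ : X.L2) (i : ℕ) (x : X.V i),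
    (T ξ) ⟨i, x⟩ = ∑ y : X.V i, if (X.graph i).Adj x y then ξ ⟨i, x⟩ - ξ ⟨i, y⟩ else 0

/-- Geometric property (T), for the Laplacian `Δ` of `X`: there is `c > 0` such that the spectrum
of the image of `Δ` is contained in `{0} ∪ [c, ∞)` for every unital star homomorphism from the
algebraic Roe algebra to a unital C*-algebra (in particular the maximal uniform Roe algebra). -/
def HasGeometricT (Δ : X.roe) : Prop :=
  ∃ c : ℝ, 0 < c ∧ ∀ (B : Type) [CStarAlgebra B] (j : X.roe →⋆ₐ[ℂ] B),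
    spectrum ℂ (j Δ) ⊆ {z | z = 0 ∨ ∃ r : ℝ, c ≤ r ∧ z = (r : ℂ)}

/-- Sums of squares in the algebraic Roe algebra. -/
def IsSumOfSquares (a : X.roe) : Prop :=
  ∃ (n : ℕ) (ξ : Fin n → X.roe), a = ∑ k, star (ξ k) * ξ k

end BoxSpace

end Pool.Agent.Work.MP_99d66e_al
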