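import Pool.Agent.Work.MP_99d66e_al.Statement
import Pool.Agent.Work.MP_99d66e_al.Conn

set_option autoImplicit false

namespace Pool.Agent.Work.MP_99d66e_al

open BoxSpace

/-- The Laplacian, as an element of `Roe`. -/
noncomputable def lap' : XX.Roe := (lap : XX.roe)

theorem lap'_laplacian : lap'.IsLaplacian := isLaplacian_lap

theorem lap'_gap : lap'.HasSpectralGap := lap_hasGeometricT

theorem lap'_not_sos (c : ℝ) (hc : 0 < c) : ¬ (lap' ^ 2 - (c : ℂ) • lap').IsSumOfSquares :=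
  lap_not_sos hc

/-- The main theorem. -/
theorem main' : ∃ (X : BoxSpace) (Δ : X.Roe), (∀ i, (X.graph i).Connected) ∧ Δ.IsLaplacian ∧
    Δ.HasSpectralGap ∧ ∀ c : ℝ, 0 < c → ¬ (Δ ^ 2 - (c : ℂ) • Δ).IsSumOfSquares :=
  ⟨XX, lap', XX_connected, lap'_laplacian, lap'_gap, lap'_not_sos⟩

end Pool.Agent.Work.MP_99d66e_al
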