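import Mathlib

set_option autoImplicit false

namespace Pool.Agent.Work.MP_99d66e_al

open Finset Pointwise

section finite

variable {G : Type} [Group G] [Fintype G] [DecidableEq G]

/-- Cayley graph of `S` with one extra edge joining `1` and `b`. -/
def cg (S : Finset G) (hS : ∀ s ∈ S, s⁻¹ ∈ S) (b : G) : SimpleGraph G where
  Adj x y := x ≠ y ∧ (x⁻¹ * y ∈ S ∨ (x = 1 ∧ y = b) ∨ (x = b ∧ y = 1))
  symm := ⟨by
    rintro x y ⟨h1, h2⟩
    refine ⟨h1.symm, ?_⟩
    rcases h2 with h | h | h
    · left
      have := hS _ h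
      rwa [mul_inv_rev, inv_inv] at this
    · right; right; exact ⟨h.2, h.1⟩
    · right; left; exact ⟨h.2, h.1⟩⟩
  loopless := ⟨fun x h => h.1 rfl⟩

/-- balls of the Cayley graph -/
def ball (S : Finset G) (n : ℕ) : Finset G := (insert 1 S) ^ n

theorem one_mem_ball (S : Finset G) (n : ℕ) : 1 ∈ ball S n :=
  Finset.one_mem_pow (mem_insert_self _ _)

theorem ball_mono (S : Finset G) {m n : ℕ} (h : m ≤ n) : ball S m ⊆ ball S n :=
  Finset.pow_subset_pow_right (mem_insert_self _ _) h

theorem ball_mul (S : Finset G) {m n : ℕ} {x y : G} (hx : x ∈ ball S m) (hy : y ∈ ball S n) :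
    x * y ∈ ball S (m + n) := by
  unfold ball
  rw [pow_add]
  exact mul_mem_mul hx hy

theorem mem_ball_one {S : Finset G} {s : G} (hs : s ∈ S) : s ∈ ball S 1 := by
  unfold ball
  rw [pow_one]
  exact mem_insert_of_mem hs

theorem ball_inv (S : Finset G) (hS : ∀ s ∈ S, s⁻¹ ∈ S) {n : ℕ} {x : G} (hx : x ∈ ball S n) :
    x⁻¹ ∈ ball S n := by
  induction n generalizing x with
  | zero =>
    unfold ball at *
    rw [pow_zero, mem_one] at *
    rw [hx, inv_one]
  | succ n ih =>
    unfold ball at hx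
    rw [pow_succ, mem_mul] at hx
    obtain ⟨y, hy, z, hz, rfl⟩ := hx
    rw [mul_inv_rev, add_comm]
    refine ball_mul S ?_ (ih hy)
    rw [mem_insert] at hz
    rcases hz with rfl | hz
    · rw [inv_one]; exact one_mem_ball _ _
    · exact mem_ball_one (hS _ hz)

/-- near the extra edge -/
def Near (S : Finset G) (b : G) (r : ℕ) (x : G) : Prop := x ∈ ball S r ∨ b⁻¹ * x ∈ ball S r

theorem near_mono {S : Finset G} {b : G} {m n : ℕ} (h : m ≤ n) {x : G} (hx : Near S b m x) :
    Near S b n x :=
  hx.imp (fun h' => ball_mono S h h') (fun h' => ball_mono S h h')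

theorem near_adj {S : Finset G} (hS : ∀ s ∈ S, s⁻¹ ∈ S) {b x y : G} {r : ℕ}
    (h : (cg S hS b).Adj x y) (hx : Near S b r x) : Near S b (r + 1) y := by
  obtain ⟨-, h2⟩ := h
  rcases h2 with h | h | h
  · rcases hx with hx | hx
    · left
      have := ball_mul S hx (mem_ball_one h)
      rwa [mul_inv_cancel_left] at this
    · right
      have := ball_mul S hx (mem_ball_one h)
      rwa [mul_assoc, mul_inv_cancel_left] at this
  · right
    rw [h.2, inv_mul_cancel]
    exact one_mem_ball _ _
  · left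
    rw [h.2]
    exact one_mem_ball _ _

theorem near_walk {S : Finset G} (hS : ∀ s ∈ S, s⁻¹ ∈ S) {b x y : G}
    (p : (cg S hS b).Walk x y) : ∀ r, Near S b r x → Near S b (r + p.length) y := by
  induction p with
  | nil => intro r h; simpa using h
  | cons h p ih =>
    intro r hx
    have := ih (r + 1) (near_adj hS h hx)
    rw [SimpleGraph.Walk.length_cons]
    rwa [add_assoc, add_comm 1] at this

theorem far_walk {S : Finset G} (hS : ∀ s ∈ S, s⁻¹ ∈ S) {b x y : G}
    (p : (cg S hS b).Walk x y) : ∀ n, p.length ≤ n → ¬ Near S b n x → x⁻¹ * y ∈ ball S n := by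
  induction p with
  | nil => intro n _ _; rw [inv_mul_cancel]; exact one_mem_ball _ _
  | @cons x w y h p ih =>
    intro n hn hx
    rw [SimpleGraph.Walk.length_cons] at hn
    obtain ⟨m, rfl⟩ : ∃ m, n = m + 1 := ⟨n - 1, by omega⟩
    have hw : ¬ Near S b m w := fun hw => hx (near_adj hS h.symm hw)
    have h1 := ih m (by omega) hw
    have h2 : x⁻¹ * w ∈ S := by
      rcases h.2 with h' | h' | h'
      · exact h'
      · exfalso; apply hx; left; rw [h'.1]; exact one_mem_ball _ _
      · exfalso; apply hx; right; rw [h'.1, inv_mul_cancel]; exact one_mem_ball _ _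
    have h3 := ball_mul S (mem_ball_one h2) h1
    rwa [mul_assoc, mul_inv_cancel_left, add_comm] at h3

open Classical in
/-- the sign attached to a pair of points -/
noncomputable def sg (S : Finset G) (b : G) (R : ℕ) (x y : G) : ℝ :=
  if (x ∈ ball S (2 * R) ∧ b⁻¹ * y ∈ ball S (2 * R)) ∨
    (b⁻¹ * x ∈ ball S (2 * R) ∧ y ∈ ball S (2 * R)) then -1 else 1

open Classical in
/-- the local sign function at `z` -/
noncomputable def sz (S : Finset G) (b : G) (R : ℕ) (z x : G) : ℝ :=
  if Near S b R z ∧ b⁻¹ * x ∈ ball S (2 * R) then -1 else 1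

theorem sz_sq (S : Finset G) (b : G) (R : ℕ) (z x : G) : sz S b R z x * sz S b R z x = 1 := by
  unfold sz; split_ifs <;> norm_num

theorem sg_eq {S : Finset G} (hS : ∀ s ∈ S, s⁻¹ ∈ S) {b : G} {R : ℕ}
    (hb : b ∉ ball S (6 * R)) {z x y : G} (p : (cg S hS b).Walk z x) (q : (cg S hS b).Walk z y)
    (hp : p.length ≤ R) (hq : q.length ≤ R) :
    sg S b R x y = sz S b R z x * sz S b R z y := by
  -- the two balls are disjoint
  have hdisj : ∀ w, w ∈ ball S (2 * R) → b⁻¹ * w ∈ ball S (2 * R) → False := by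
    intro w h1 h2
    apply hb
    have h3 := ball_mul S h1 (ball_inv S hS h2)
    rw [mul_inv_rev, inv_inv, mul_inv_cancel_left] at h3
    exact ball_mono S (by omega) h3
  by_cases hz : Near S b R z
  · have hx : Near S b (2 * R) x := near_mono (by omega) (near_walk hS p R hz)
    have hy : Near S b (2 * R) y := near_mono (by omega) (near_walk hS q R hz)
    unfold sg sz
    rcases hx with hx | hx <;> rcases hy with hy | hy
    · have a1 : ¬ b⁻¹ * x ∈ ball S (2 * R) := fun h => hdisj x hx h
      have a2 : ¬ b⁻¹ * y ∈ ball S (2 * R) := fun h => hdisj y hy h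
      simp [a1, a2]
    · have a1 : ¬ b⁻¹ * x ∈ ball S (2 * R) := fun h => hdisj x hx h
      simp [a1, hy, hx, hz]
    · have a2 : ¬ b⁻¹ * y ∈ ball S (2 * R) := fun h => hdisj y hy h
      simp [a2, hy, hx, hz]
    · have a1 : ¬ x ∈ ball S (2 * R) := fun h => hdisj x h hx
      have a2 : ¬ y ∈ ball S (2 * R) := fun h => hdisj y h hy
      simp [a1, a2, hx, hy, hz]
  · have hx := far_walk hS p R hp hz
    have hy := far_walk hS q R hq hz
    have hxy : x⁻¹ * y ∈ ball S (2 * R) := by
      have := ball_mul S (ball_inv S hS hx) hy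
      rw [mul_inv_rev, inv_inv, mul_assoc, mul_inv_cancel_left] at this
      exact ball_mono S (by omega) this
    unfold sg sz
    have h1 : ¬ ((x ∈ ball S (2 * R) ∧ b⁻¹ * y ∈ ball S (2 * R)) ∨
        (b⁻¹ * x ∈ ball S (2 * R) ∧ y ∈ ball S (2 * R))) := by
      rintro (⟨h1, h2⟩ | ⟨h1, h2⟩)
      · apply hb
        have h3 := ball_mul S (ball_mul S h1 hxy) (ball_inv S hS h2)
        rw [mul_inv_cancel_left, mul_inv_rev, inv_inv, mul_inv_cancel_left] at h3
        exact ball_mono S (by omega) h3
      · apply hb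
        have h3 := ball_mul S (ball_mul S h2 (ball_inv S hS hxy)) (ball_inv S hS h1)
        rw [mul_inv_rev, inv_inv, mul_inv_cancel_left, mul_inv_rev, inv_inv,
          mul_inv_cancel_left] at h3
        exact ball_mono S (by omega) h3
    rw [if_neg h1, if_neg (fun h => hz h.1), if_neg (fun h => hz h.1)]
    norm_num

end finite

end Pool.Agent.Work.MP_99d66e_al
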