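import Mathlib

set_option autoImplicit false

namespace Pool.Agent.Work.MP_99d66e_al

open Polynomial Matrix

instance fact5 : Fact (Nat.Prime 5) := ⟨by norm_num⟩

/-- commutators -/
def cmt {G : Type} [Group G] (x y : G) : G := x * y * x⁻¹ * y⁻¹

theorem map_cmt {G H : Type} [Group G] [Group H] (f : G →* H) (x y : G) :
    f (cmt x y) = cmt (f x) (f y) := by
  simp [cmt]

section ring

variable {R : Type} [CommRing R]

/-- elementary matrices (positions `01`, `12`, `20`) -/
def em (l : Fin 3) (a : R) : Matrix (Fin 3) (Fin 3) R :=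
  match l with
  | 0 => !![1, a, 0; 0, 1, 0; 0, 0, 1]
  | 1 => !![1, 0, 0; 0, 1, a; 0, 0, 1]
  | 2 => !![1, 0, 0; 0, 1, 0; a, 0, 1]

/-- elementary matrices (positions `02`, `10`, `21`) -/
def fm (l : Fin 3) (a : R) : Matrix (Fin 3) (Fin 3) R :=
  match l with
  | 0 => !![1, 0, a; 0, 1, 0; 0, 0, 1]
  | 1 => !![1, 0, 0; a, 1, 0; 0, 0, 1]
  | 2 => !![1, 0, 0; 0, 1, 0; 0, a, 1]

theorem em_mul (l : Fin 3) (a b : R) : em l a * em l b = em l (a + b) := by
  fin_cases l <;>
  · ext i j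
    fin_cases i <;> fin_cases j <;> simp [em, Matrix.mul_apply, Fin.sum_univ_three, add_comm]

theorem fm_mul (l : Fin 3) (a b : R) : fm l a * fm l b = fm l (a + b) := by
  fin_cases l <;>
  · ext i j
    fin_cases i <;> fin_cases j <;> simp [fm, Matrix.mul_apply, Fin.sum_univ_three, add_comm]

theorem em_zero (l : Fin 3) : em l (0 : R) = 1 := by
  fin_cases l <;>
  · ext i j
    fin_cases i <;> fin_cases j <;> simp [em]

theorem fm_zero (l : Fin 3) : fm l (0 : R) = 1 := by
  fin_cases l <;>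
  · ext i j
    fin_cases i <;> fin_cases j <;> simp [fm]

theorem em_comm (l : Fin 3) (a b : R) :
    em l a * em (l + 1) b = fm l (a * b) * (em (l + 1) b * em l a) := by
  fin_cases l <;>
  · ext i j
    fin_cases i <;> fin_cases j <;>
      simp [em, fm, Matrix.mul_apply, Fin.sum_univ_three, add_comm, mul_comm]

theorem fm_em (l : Fin 3) (a b : R) : fm l a * em l b = em l b * fm l a := by
  fin_cases l <;>
  · ext i j
    fin_cases i <;> fin_cases j <;>
      simp [em, fm, Matrix.mul_apply, Fin.sum_univ_three, add_comm, mul_comm]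

theorem fm_em' (l : Fin 3) (a b : R) : fm l a * em (l + 1) b = em (l + 1) b * fm l a := by
  fin_cases l <;>
  · ext i j
    fin_cases i <;> fin_cases j <;>
      simp [em, fm, Matrix.mul_apply, Fin.sum_univ_three, add_comm, mul_comm]

theorem em_inj {l l' : Fin 3} {a a' : R} (ha : a ≠ 0) (h : em l a = em l' a') :
    l = l' ∧ a = a' := by
  have h01 := congrFun (congrFun h 0) 1
  have h12 := congrFun (congrFun h 1) 2
  have h20 := congrFun (congrFun h 2) 0
  fin_cases l <;> fin_cases l' <;> simp [em] at h01 h12 h20 ⊢ <;> first | exact h01 | exact h12 | exact h20 | exact ha h01 | exact ha h12 | exact ha h20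

/-- elementary matrices as units -/
def eu (l : Fin 3) (a : R) : (Matrix (Fin 3) (Fin 3) R)ˣ :=
  ⟨em l a, em l (-a), by rw [em_mul, add_neg_cancel, em_zero],
    by rw [em_mul, neg_add_cancel, em_zero]⟩

/-- elementary matrices as units -/
def fu (l : Fin 3) (a : R) : (Matrix (Fin 3) (Fin 3) R)ˣ :=
  ⟨fm l a, fm l (-a), by rw [fm_mul, add_neg_cancel, fm_zero],
    by rw [fm_mul, neg_add_cancel, fm_zero]⟩

theorem eu_pow (l : Fin 3) (a : R) (k : ℕ) : eu l a ^ k = eu l ((k : R) * a) := by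
  induction k with
  | zero =>
    rw [pow_zero, Nat.cast_zero, zero_mul]
    apply Units.ext
    exact (em_zero l).symm
  | succ k ih =>
    rw [pow_succ, ih]
    apply Units.ext
    show em l _ * em l _ = em l _
    rw [em_mul]
    congr 1
    push_cast
    ring

theorem eu_commutator (l : Fin 3) (a b : R) : cmt (eu l a) (eu (l + 1) b) = fu l (a * b) := by
  have h : eu l a * eu (l + 1) b = fu l (a * b) * (eu (l + 1) b * eu l a) := by
    apply Units.ext
    exact em_comm l a b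
  rw [cmt, h]
  group

theorem fu_eu (l : Fin 3) (a b : R) : Commute (fu l a) (eu l b) := by
  apply Units.ext
  exact fm_em l a b

theorem fu_eu' (l : Fin 3) (a b : R) : Commute (fu l a) (eu (l + 1) b) := by
  apply Units.ext
  exact fm_em' l a b

/-- The parameters of the three generators. -/
def cv (t : R) (l : Fin 3) : R := if l = 2 then t else 1

end ring

/-- the ring `F₅[X]/(X^(n+14))` -/
abbrev An (n : ℕ) : Type := AdjoinRoot (X ^ (n + 14) : (ZMod 5)[X])

noncomputable section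

instance (n : ℕ) : Finite (An n) := by
  have h : (X ^ (n + 14) : (ZMod 5)[X]).Monic := monic_X_pow _
  have := h.finite_adjoinRoot
  exact Module.finite_of_finite (ZMod 5)

/-- the representation of the free group -/
def rho0 (n : ℕ) : FreeGroup (Fin 3) →* (Matrix (Fin 3) (Fin 3) (An n))ˣ :=
  FreeGroup.lift (fun l => eu l (cv (AdjoinRoot.root (X ^ (n + 14) : (ZMod 5)[X])) l))

/-- the finite groups -/
abbrev Gn (n : ℕ) : Type := (rho0 n).range

instance (n : ℕ) : Fintype (Gn n) := Fintype.ofFinite _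

/-- the quotient map from the free group -/
def rho (n : ℕ) : FreeGroup (Fin 3) →* Gn n := (rho0 n).rangeRestrict

theorem rho_surj (n : ℕ) : Function.Surjective (rho n) := (rho0 n).rangeRestrict_surjective

theorem rho0_of (n : ℕ) (l : Fin 3) :
    rho0 n (FreeGroup.of l) = eu l (cv (AdjoinRoot.root (X ^ (n + 14) : (ZMod 5)[X])) l) := by
  unfold rho0
  rw [FreeGroup.lift_apply_of]

theorem rho_eq_iff (n : ℕ) (v w : FreeGroup (Fin 3)) : rho n v = rho n w ↔ rho0 n v = rho0 n w := by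
  unfold rho
  constructor
  · intro h
    exact congrArg Subtype.val h
  · intro h
    exact Subtype.ext h

theorem deg_lt (n : ℕ) (p : (ZMod 5)[X]) (hp : p ≠ 0) (h : p.natDegree < n + 14) :
    AdjoinRoot.mk (X ^ (n + 14) : (ZMod 5)[X]) p ≠ 0 := by
  apply AdjoinRoot.mk_ne_zero_of_natDegree_lt (monic_X_pow _) hp
  rwa [natDegree_X_pow]

theorem cv_ne_zero (n : ℕ) (l : Fin 3) :
    cv (AdjoinRoot.root (X ^ (n + 14) : (ZMod 5)[X])) l ≠ 0 := by
  unfold cv
  split_ifs
  · exact deg_lt n X X_ne_zero (by rw [natDegree_X]; omega)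
  · have := deg_lt n 1 one_ne_zero (by rw [natDegree_one]; omega)
    rwa [map_one] at this

theorem five_zero (n : ℕ) : ((5 : ℕ) : An n) = 0 := by
  have h : ((5 : ℕ) : ZMod 5) = 0 := by decide
  have h2 := congrArg (algebraMap (ZMod 5) (An n)) h
  rwa [map_natCast, map_zero] at h2

theorem rho_pow_five (n : ℕ) (l : Fin 3) : rho n (FreeGroup.of l) ^ 5 = 1 := by
  rw [← map_pow, ← map_one (rho n), rho_eq_iff, map_pow, map_one, rho0_of, eu_pow, five_zero,
    zero_mul]
  apply Units.ext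
  exact em_zero l

theorem nat_mul_inj (n : ℕ) {a : An n} (ha : a ≠ 0) {k k' : ℕ} (hk : k < 5) (hk' : k' < 5)
    (h : (k : An n) * a = (k' : An n) * a) : k = k' := by
  have h1 : ((k : ZMod 5)) • a = ((k' : ZMod 5)) • a := by
    rw [Algebra.smul_def, Algebra.smul_def, map_natCast, map_natCast]
    exact h
  have h2 : (k : ZMod 5) = (k' : ZMod 5) := smul_left_injective (ZMod 5) ha h1
  have h3 := (ZMod.natCast_eq_natCast_iff' k k' 5).1 h2
  rwa [Nat.mod_eq_of_lt hk, Nat.mod_eq_of_lt hk'] at h3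

theorem rho_inj (n : ℕ) {l l' : Fin 3} {k k' : ℕ} (hk : k < 5) (hk' : k' < 5) (hk0 : k ≠ 0)
    (h : rho n (FreeGroup.of l) ^ k = rho n (FreeGroup.of l') ^ k') : l = l' ∧ k = k' := by
  rw [← map_pow, ← map_pow, rho_eq_iff, map_pow, map_pow, rho0_of, rho0_of, eu_pow, eu_pow] at h
  have h1 := congrArg Units.val h
  have h0 : ((k : ℕ) : An n) * cv (AdjoinRoot.root (X ^ (n + 14) : (ZMod 5)[X])) l ≠ 0 := by
    intro h0
    apply hk0
    apply nat_mul_inj n (cv_ne_zero n l) hk (by norm_num : 0 < 5)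
    rw [h0, Nat.cast_zero, zero_mul]
  obtain ⟨h2, h3⟩ := em_inj h0 h1
  subst h2
  exact ⟨rfl, nat_mul_inj n (cv_ne_zero n l) hk hk' h3⟩

theorem rho_ne_one (n : ℕ) (l : Fin 3) {k : ℕ} (hk : k < 5) (hk0 : k ≠ 0) :
    rho n (FreeGroup.of l) ^ k ≠ 1 := by
  intro h
  have h' : rho n (FreeGroup.of l) ^ k = rho n (FreeGroup.of l) ^ 0 := by rw [h, pow_zero]
  exact hk0 (rho_inj n hk (by norm_num) hk0 h').2

theorem rho_comm (n : ℕ) (l : Fin 3) :
    rho n (cmt (FreeGroup.of l) (FreeGroup.of (l + 1)) * FreeGroup.of l)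
      = rho n (FreeGroup.of l * cmt (FreeGroup.of l) (FreeGroup.of (l + 1))) := by
  rw [rho_eq_iff, map_mul, map_mul, map_cmt, rho0_of, rho0_of, eu_commutator]
  exact fu_eu l _ _

theorem rho_comm' (n : ℕ) (l : Fin 3) :
    rho n (cmt (FreeGroup.of l) (FreeGroup.of (l + 1)) * FreeGroup.of (l + 1))
      = rho n (FreeGroup.of (l + 1) * cmt (FreeGroup.of l) (FreeGroup.of (l + 1))) := by
  rw [rho_eq_iff, map_mul, map_mul, map_cmt, rho0_of, rho0_of, eu_commutator]
  exact fu_eu' l _ _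

/-- a word of large order -/
def mw : FreeGroup (Fin 3) := cmt (FreeGroup.of 0) (FreeGroup.of 1) * FreeGroup.of 2

/-- the matrix of `mw` over the polynomial ring -/
def Mp : Matrix (Fin 3) (Fin 3) (ZMod 5)[X] := fm 0 1 * em 2 X

theorem Mp_eq : Mp = !![1 + X, 0, 1; 0, 1, 0; X, 0, 1] := by
  unfold Mp
  ext i j
  fin_cases i <;> fin_cases j <;> simp [em, fm, Matrix.mul_apply, Fin.sum_univ_three]

theorem Mp_pow (k : ℕ) : ((Mp ^ k) 0 0).Monic ∧ ((Mp ^ k) 0 0).natDegree = k ∧
    ((Mp ^ k) 0 2).degree < k ∧ (Mp ^ k) 0 1 = 0 := by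
  induction k with
  | zero => simp
  | succ k ih =>
    obtain ⟨h1, h2, h3, h4⟩ := ih
    have e0 : (Mp ^ (k + 1)) 0 0 = (Mp ^ k) 0 0 * (X + C 1) + (Mp ^ k) 0 2 * X := by
      rw [pow_succ, Matrix.mul_apply, Fin.sum_univ_three, Mp_eq]
      simp [add_comm]
    have e1 : (Mp ^ (k + 1)) 0 1 = 0 := by
      rw [pow_succ, Matrix.mul_apply, Fin.sum_univ_three, h4, Mp_eq]
      simp
    have e2 : (Mp ^ (k + 1)) 0 2 = (Mp ^ k) 0 0 + (Mp ^ k) 0 2 := by
      rw [pow_succ, Matrix.mul_apply, Fin.sum_univ_three, Mp_eq]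
      simp
    have d0 : ((Mp ^ k) 0 0).degree = k := by
      rw [degree_eq_natDegree h1.ne_zero, h2]
    have m1 : ((Mp ^ k) 0 0 * (X + C 1)).Monic := h1.mul (monic_X_add_C 1)
    have n1 : ((Mp ^ k) 0 0 * (X + C 1)).natDegree = k + 1 := by
      rw [h1.natDegree_mul (monic_X_add_C 1), h2, natDegree_X_add_C]
    have d1 : ((Mp ^ k) 0 0 * (X + C 1)).degree = ((k + 1 : ℕ) : WithBot ℕ) := by
      rw [degree_eq_natDegree m1.ne_zero, n1]
    have d2 : ((Mp ^ k) 0 2 * X).degree < ((k + 1 : ℕ) : WithBot ℕ) := by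
      by_cases hz : (Mp ^ k) 0 2 = 0
      · rw [hz, zero_mul, degree_zero]; exact WithBot.bot_lt_coe _
      · rw [degree_mul, degree_X, degree_eq_natDegree hz]
        rw [degree_eq_natDegree hz] at h3
        have : ((Mp ^ k) 0 2).natDegree < k := by exact_mod_cast h3
        exact_mod_cast Nat.add_lt_add_right this 1
    refine ⟨?_, ?_, ?_, e1⟩
    · rw [e0]
      exact m1.add_of_left (by rw [d1]; exact d2)
    · rw [e0, natDegree_add_eq_left_of_degree_lt (by rw [d1]; exact d2), n1]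
    · rw [e2]
      refine lt_of_le_of_lt (degree_add_le _ _) (max_lt ?_ ?_)
      · rw [d0]; exact_mod_cast Nat.lt_succ_self k
      · exact h3.trans (by exact_mod_cast Nat.lt_succ_self k)

theorem rho0_mw (n : ℕ) : (rho0 n mw : Matrix (Fin 3) (Fin 3) (An n))
    = (AdjoinRoot.mk (X ^ (n + 14) : (ZMod 5)[X])).mapMatrix Mp := by
  unfold mw Mp
  rw [map_mul, map_cmt, rho0_of, rho0_of, rho0_of]
  have h := eu_commutator (0 : Fin 3) (cv (AdjoinRoot.root (X ^ (n + 14) : (ZMod 5)[X])) 0)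
    (cv (AdjoinRoot.root (X ^ (n + 14) : (ZMod 5)[X])) 1)
  rw [zero_add] at h
  rw [h, Units.val_mul, map_mul]
  congr 1
  · show fm 0 _ = _
    ext i j
    fin_cases i <;> fin_cases j <;> simp [fm, cv]
  · show em 2 _ = _
    ext i j
    fin_cases i <;> fin_cases j <;> simp [em, cv]

theorem rho_mw_inj (n : ℕ) {k l : ℕ} (hk : k < n + 14) (hl : l < n + 14)
    (h : rho n mw ^ k = rho n mw ^ l) : k = l := by
  wlog hkl : k ≤ l generalizing k l with H
  · exact (H hl hk h.symm (by omega)).symm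
  by_contra hne
  have hlt : k < l := by omega
  rw [← map_pow, ← map_pow, rho_eq_iff, map_pow, map_pow] at h
  have h1 := congrArg Units.val h
  rw [Units.val_pow_eq_pow_val, Units.val_pow_eq_pow_val, rho0_mw, ← map_pow, ← map_pow] at h1
  have h2 := congrFun (congrFun h1 0) 0
  simp only [RingHom.mapMatrix_apply, Matrix.map_apply] at h2
  obtain ⟨a1, a2, -, -⟩ := Mp_pow k
  obtain ⟨b1, b2, -, -⟩ := Mp_pow l
  have h3 : AdjoinRoot.mk (X ^ (n + 14) : (ZMod 5)[X]) ((Mp ^ l) 0 0 - (Mp ^ k) 0 0) = 0 := by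
    rw [map_sub, h2, sub_self]
  have hdeg : ((Mp ^ l) 0 0 - (Mp ^ k) 0 0).natDegree = l := by
    rw [natDegree_sub_eq_left_of_natDegree_lt (by rw [a2, b2]; exact hlt), b2]
  refine deg_lt n _ ?_ (by rw [hdeg]; exact hl) h3
  intro h0
  rw [h0, natDegree_zero] at hdeg
  omega

theorem card_Gn (n : ℕ) : n + 14 ≤ Fintype.card (Gn n) := by
  have h : Function.Injective (fun k : Fin (n + 14) => rho n mw ^ (k : ℕ)) := by
    intro k l hkl
    exact Fin.ext (rho_mw_inj n k.2 l.2 hkl)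
  have := Fintype.card_le_of_injective _ h
  rwa [Fintype.card_fin] at this

end

end Pool.Agent.Work.MP_99d66e_al
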