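import Pool.Agent.Work.MP_99d66e_al.Pair

set_option autoImplicit false

namespace Pool.Agent.Work.MP_99d66e_al

open Finset

section ineq

variable {B : Type*} [CStarAlgebra B] [PartialOrder B] [StarOrderedRing B]

theorem smul_nonneg_B {r : ℝ} (hr : 0 ≤ r) {b : B} (hb : 0 ≤ b) : 0 ≤ r • b :=
  smul_nonneg hr hb

theorem pair_ineq {P Q E : B} (h : PairData P Q E) {ε : ℝ} (hε0 : 0 < ε) (hε1 : ε < 1)
    (hε : ε * ε = 5⁻¹) :
    0 ≤ (2 - P - Q) * (2 - P - Q) - (1 - ε) • (2 - P - Q) := by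
  obtain ⟨PP, QQ, EE, sP, sQ, sE, PE, QE, EPQ, PQP⟩ := h
  obtain ⟨F, hF⟩ : ∃ F : B, F = E * P * Q := ⟨_, rfl⟩
  have FP : F * P = F := by
    calc F * P = (E * P * Q) * P := by rw [hF]
      _ = (E * Q * P) * P := by rw [EPQ]
      _ = E * Q * (P * P) := by noncomm_ring
      _ = E * P * Q := by rw [PP, EPQ]
      _ = F := hF.symm
  have PF : P * F = F := by
    calc P * F = (P * E) * P * Q := by rw [hF]; noncomm_ring
      _ = E * (P * P) * Q := by rw [PE]; noncomm_ring
      _ = F := by rw [PP, hF]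
  have QF : Q * F = F := by
    calc Q * F = (Q * E) * P * Q := by rw [hF]; noncomm_ring
      _ = (E * Q * P) * Q := by rw [QE]
      _ = (E * P * Q) * Q := by rw [EPQ]
      _ = E * P * (Q * Q) := by noncomm_ring
      _ = F := by rw [QQ, hF]
  have FQ : F * Q = F := by
    calc F * Q = E * P * (Q * Q) := by rw [hF]; noncomm_ring
      _ = F := by rw [QQ, hF]
  have EF : E * F = F := by
    calc E * F = (E * E) * P * Q := by rw [hF]; noncomm_ring
      _ = F := by rw [EE, hF]
  have FF : F * F = F := by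
    calc F * F = E * (P * (Q * F)) := by rw [hF]; noncomm_ring
      _ = F := by rw [QF, PF, EF]
  have sF : star F = F := by
    calc star F = Q * (P * E) := by rw [hF, star_mul, star_mul, sP, sQ, sE]
      _ = (Q * E) * P := by rw [PE]; noncomm_ring
      _ = E * P * Q := by rw [QE, EPQ]
      _ = F := hF.symm
  rw [← hF] at PQP
  -- PE - F ≥ 0
  have hPEF : 0 ≤ P * E - F := by
    have h1 : star ((1 - Q) * E * P) * ((1 - Q) * E * P) = P * E - F := by
      rw [star_mul, star_mul, star_sub, star_one, sQ, sE, sP]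
      calc P * (E * (1 - Q)) * ((1 - Q) * E * P)
          = P * E * ((1 - Q) * (1 - Q)) * (E * P) := by noncomm_ring
        _ = P * E * (1 - Q) * (P * E) := by
            have : (1 - Q) * (1 - Q) = 1 - Q := by
              calc (1 - Q) * (1 - Q) = 1 - Q - Q + Q * Q := by noncomm_ring
                _ = _ := by rw [QQ]; abel
            rw [this, PE]
        _ = P * (E * P) * E - P * (E * Q * P) * E := by noncomm_ring
        _ = (P * P) * (E * E) - (P * F) * E := by
            rw [← EPQ, ← hF, ← PE]; noncomm_ring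
        _ = P * E - F * E := by rw [PP, EE, PF]
        _ = P * E - F := by
            have : F * E = F := by
              calc F * E = E * (P * (Q * E)) := by rw [hF]; noncomm_ring
                _ = E * ((P * E) * Q) := by rw [QE]; noncomm_ring
                _ = (E * E) * P * Q := by rw [PE]; noncomm_ring
                _ = F := by rw [EE, hF]
            rw [this]
    rw [← h1]
    exact star_mul_self_nonneg _
  obtain ⟨p, hp⟩ : ∃ p : B, p = P - F := ⟨_, rfl⟩
  obtain ⟨q, hq⟩ : ∃ q : B, q = Q - F := ⟨_, rfl⟩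
  have pp : p * p = p := by
    calc p * p = P * P - P * F - F * P + F * F := by rw [hp]; noncomm_ring
      _ = p := by rw [PP, PF, FP, FF, hp]; abel
  have qq : q * q = q := by
    calc q * q = Q * Q - Q * F - F * Q + F * F := by rw [hq]; noncomm_ring
      _ = q := by rw [QQ, QF, FQ, FF, hq]; abel
  have sp : star p = p := by rw [hp, star_sub, sP, sF]
  have sq : star q = q := by rw [hq, star_sub, sQ, sF]
  have pF : p * F = 0 := by rw [hp, sub_mul, PF, FF, sub_self]
  have qF : q * F = 0 := by rw [hq, sub_mul, QF, FF, sub_self]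
  have Fp : F * p = 0 := by rw [hp, mul_sub, FP, FF, sub_self]
  have Fq : F * q = 0 := by rw [hq, mul_sub, FQ, FF, sub_self]
  have pqp : p * q * p = (5⁻¹ : ℝ) • (P - P * E) := by
    calc p * q * p = P * Q * P - P * (Q * F) - (P * F) * P + (P * F) * F
          - (F * Q) * P + (F * Q) * F + (F * F) * P - F * F * F := by
          rw [hp, hq]; noncomm_ring
      _ = (5⁻¹ : ℝ) • (P - P * E) := by
        rw [PQP, QF, PF, FQ, FF, FP, FF]; abel
  have hpqp : 0 ≤ (5⁻¹ : ℝ) • p - p * q * p := by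
    have : (5⁻¹ : ℝ) • p - p * q * p = (5⁻¹ : ℝ) • (P * E - F) := by
      rw [pqp, hp]; module
    rw [this]
    exact smul_nonneg (by norm_num) hPEF
  have hqpq : p * (q * p) = p * q * p := by rw [mul_assoc]
  have key1 : (1 + ε) • (p + q) - (p + q) * (p + q)
      = ε⁻¹ • (star (ε • q - q * p) * (ε • q - q * p)) + ε⁻¹ • ((5⁻¹ : ℝ) • p - p * q * p) := by
    have e1 : star (ε • q - q * p) = ε • q - p * q := by
      rw [star_sub, star_smul, star_mul, sp, sq, star_trivial]
    have e2 : (ε • q - p * q) * (ε • q - q * p)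
        = (ε * ε) • q - ε • (q * p) - ε • (p * q) + p * q * p := by
      have a1 : (ε • q - p * q) * (ε • q - q * p) = (ε * ε) • (q * q) - ε • (q * q * p)
          - ε • (p * (q * q)) + p * (q * q) * p := by
        simp only [sub_mul, mul_sub, smul_mul_assoc, mul_smul_comm, mul_assoc]
        module
      rw [a1, qq]
    have e3 : (p + q) * (p + q) = p + q + p * q + q * p := by
      calc (p + q) * (p + q) = p * p + q * q + p * q + q * p := by noncomm_ring
        _ = _ := by rw [pp, qq]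
    rw [e1, e2, e3, hε]
    have hne : ε ≠ 0 := hε0.ne'
    have h5 : ε⁻¹ * 5⁻¹ = ε := by rw [← hε]; field_simp
    simp only [smul_sub, smul_add, smul_smul, h5, inv_mul_cancel₀ hne, one_smul]
    module
  have hN : 0 ≤ (1 + ε) • (p + q) - (p + q) * (p + q) := by
    rw [key1]
    exact add_nonneg (smul_nonneg (inv_nonneg.2 hε0.le) (star_mul_self_nonneg _))
      (smul_nonneg (inv_nonneg.2 hε0.le) hpqp)
  obtain ⟨N, hNdef⟩ : ∃ N : B, N = p + q := ⟨_, rfl⟩
  rw [← hNdef] at hN
  have sN : star N = N := by rw [hNdef, star_add, sp, sq]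
  have NF : N * F = 0 := by rw [hNdef, add_mul, pF, qF, add_zero]
  have FN : F * N = 0 := by rw [hNdef, mul_add, Fp, Fq, add_zero]
  obtain ⟨W, hW⟩ : ∃ W : B, W = (1 + ε) • (1 - F) - N := ⟨_, rfl⟩
  have sW : star W = W := by
    rw [hW, star_sub, star_smul, star_sub, star_one, sF, sN, star_trivial]
  have WW : W * W = ((1 + ε) * (1 + ε)) • (1 - F) - (2 * (1 + ε)) • N + N * N := by
    have a1 : W * W = ((1 + ε) * (1 + ε)) • ((1 - F) * (1 - F)) - (1 + ε) • ((1 - F) * N)
        - (1 + ε) • (N * (1 - F)) + N * N := by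
      rw [hW]
      simp only [sub_mul, mul_sub, smul_mul_assoc, mul_smul_comm, smul_smul, mul_one, one_mul,
        smul_sub]
      abel
    have a2 : (1 - F) * (1 - F) = 1 - F := by
      calc (1 - F) * (1 - F) = 1 - F - F + F * F := by noncomm_ring
        _ = _ := by rw [FF]; abel
    have a3 : (1 - F) * N = N := by rw [sub_mul, one_mul, FN, sub_zero]
    have a4 : N * (1 - F) = N := by rw [mul_sub, mul_one, NF, sub_zero]
    rw [a1, a2, a3, a4]
    module
  have hW0 : 0 ≤ W := by
    have h1 : W = (1 + ε)⁻¹ • (star W * W + ((1 + ε) • N - N * N)) := by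
      have hne : (1 + ε) ≠ 0 := by positivity
      have : star W * W + ((1 + ε) • N - N * N) = (1 + ε) • W := by
        rw [sW, WW, hW]; module
      rw [this, smul_smul, inv_mul_cancel₀ hne, one_smul]
    rw [h1]
    exact smul_nonneg (by positivity) (add_nonneg (star_mul_self_nonneg _) hN)
  have hfin : (2 - P - Q) * (2 - P - Q) - (1 - ε) • (2 - P - Q) = star W * W + (1 - ε) • W := by
    have h2 : (2 - P - Q : B) = (2 : ℝ) • (1 - F) - N := by
      rw [hNdef, hp, hq]
      have : (2 : B) = (2 : ℝ) • (1 : B) := by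
        rw [two_smul, one_add_one_eq_two]
      rw [this]
      module
    have a2 : (1 - F) * (1 - F) = 1 - F := by
      calc (1 - F) * (1 - F) = 1 - F - F + F * F := by noncomm_ring
        _ = _ := by rw [FF]; abel
    have a3 : (1 - F) * N = N := by rw [sub_mul, one_mul, FN, sub_zero]
    have a4 : N * (1 - F) = N := by rw [mul_sub, mul_one, NF, sub_zero]
    have h3 : ((2 : ℝ) • (1 - F) - N) * ((2 : ℝ) • (1 - F) - N)
        = (4 : ℝ) • (1 - F) - (4 : ℝ) • N + N * N := by
      rw [sub_mul, mul_sub, mul_sub, smul_mul_smul_comm, a2, smul_mul_assoc, a3, mul_smul_comm, a4]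
      module
    rw [h2, h3, sW, WW, hW]
    module
  rw [hfin]
  exact add_nonneg (star_mul_self_nonneg _) (smul_nonneg (by linarith) hW0)

theorem triple_ineq {P1 P2 P3 E12 E23 E31 : B} (h12 : PairData P1 P2 E12)
    (h23 : PairData P2 P3 E23) (h31 : PairData P3 P1 E31) {ε : ℝ} (hε0 : 0 < ε) (hε1 : ε < 1)
    (hε : ε * ε = 5⁻¹) :
    0 ≤ (3 - P1 - P2 - P3) * (3 - P1 - P2 - P3) - (1 - 2 * ε) • (3 - P1 - P2 - P3) := by
  have i12 := pair_ineq h12 hε0 hε1 hε
  have i23 := pair_ineq h23 hε0 hε1 hε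
  have i31 := pair_ineq h31 hε0 hε1 hε
  obtain ⟨q1, hq1⟩ : ∃ q : B, q = 1 - P1 := ⟨_, rfl⟩
  obtain ⟨q2, hq2⟩ : ∃ q : B, q = 1 - P2 := ⟨_, rfl⟩
  obtain ⟨q3, hq3⟩ : ∃ q : B, q = 1 - P3 := ⟨_, rfl⟩
  have qq1 : q1 * q1 = q1 := by
    calc q1 * q1 = 1 - P1 - P1 + P1 * P1 := by rw [hq1]; noncomm_ring
      _ = _ := by rw [h12.PP, hq1]; abel
  have qq2 : q2 * q2 = q2 := by
    calc q2 * q2 = 1 - P2 - P2 + P2 * P2 := by rw [hq2]; noncomm_ring
      _ = _ := by rw [h12.QQ, hq2]; abel
  have qq3 : q3 * q3 = q3 := by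
    calc q3 * q3 = 1 - P3 - P3 + P3 * P3 := by rw [hq3]; noncomm_ring
      _ = _ := by rw [h23.QQ, hq3]; abel
  have e2 : (2 : B) = 1 + 1 := one_add_one_eq_two.symm
  have e3 : (3 : B) = 1 + 1 + 1 := by norm_num
  have d12 : 2 - P1 - P2 = q1 + q2 := by rw [hq1, hq2, e2]; abel
  have d23 : 2 - P2 - P3 = q2 + q3 := by rw [hq2, hq3, e2]; abel
  have d31 : 2 - P3 - P1 = q3 + q1 := by rw [hq3, hq1, e2]; abel
  have d : 3 - P1 - P2 - P3 = q1 + q2 + q3 := by rw [hq1, hq2, hq3, e3]; abel
  rw [d12] at i12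
  rw [d23] at i23
  rw [d31] at i31
  rw [d]
  have key : (q1 + q2 + q3) * (q1 + q2 + q3) - (1 - 2 * ε) • (q1 + q2 + q3)
      = ((q1 + q2) * (q1 + q2) - (1 - ε) • (q1 + q2)) + ((q2 + q3) * (q2 + q3)
        - (1 - ε) • (q2 + q3)) + ((q3 + q1) * (q3 + q1) - (1 - ε) • (q3 + q1)) := by
    simp only [mul_add, add_mul, qq1, qq2, qq3]
    module
  rw [key]
  exact add_nonneg (add_nonneg i12 i23) i31

end ineq

end Pool.Agent.Work.MP_99d66e_al
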