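import Pool.Agent.Work.MP_99d66e_al.Space

set_option autoImplicit false

namespace Pool.Agent.Work.MP_99d66e_al

open BoxSpace

noncomputable section

/-- right translation by a word -/
def sig (w : FreeGroup (Fin 3)) : Equiv.Perm XX.Pt :=
  Equiv.sigmaCongrRight (fun i => (Equiv.mulRight (rho i w) : Gn i ≃ Gn i))

/-- the flip of the extra edges -/
def tau : Equiv.Perm XX.Pt :=
  Equiv.sigmaCongrRight (fun i => (Equiv.swap (1 : Gn i) (bn i) : Gn i ≃ Gn i))

theorem sig_apply (w : FreeGroup (Fin 3)) (i : ℕ) (g : Gn i) :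
    sig w (⟨i, g⟩ : XX.Pt) = ⟨i, g * rho i w⟩ := rfl

theorem tau_apply (i : ℕ) (g : Gn i) :
    tau (⟨i, g⟩ : XX.Pt) = ⟨i, Equiv.swap (1 : Gn i) (bn i) g⟩ := rfl

theorem sig_mul (v w : FreeGroup (Fin 3)) : sig w * sig v = sig (v * w) := by
  apply Equiv.ext
  rintro ⟨i, g⟩
  rw [Equiv.Perm.mul_apply, sig_apply, sig_apply, sig_apply, map_mul, mul_assoc]

theorem sig_one : sig 1 = 1 := by
  apply Equiv.ext
  rintro ⟨i, g⟩
  rw [sig_apply, map_one, mul_one]
  rfl

theorem sig_inv (w : FreeGroup (Fin 3)) : (sig w)⁻¹ = sig w⁻¹ := by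
  rw [inv_eq_iff_mul_eq_one, sig_mul, inv_mul_cancel, sig_one]

theorem tau_mul : tau * tau = 1 := by
  apply Equiv.ext
  rintro ⟨i, g⟩
  rw [Equiv.Perm.mul_apply, tau_apply, tau_apply, Equiv.swap_apply_self]
  rfl

theorem tau_inv : tau⁻¹ = tau := by
  rw [inv_eq_iff_mul_eq_one, tau_mul]

theorem edist_adj {i : ℕ} {x y : Gn i} (h : (cg (Sn i) (Sn_inv i) (bn i)).Adj x y) :
    XX.edist ⟨i, x⟩ ⟨i, y⟩ < 2 := by
  rw [edist_same]
  have : (XX.graph i).edist x y = 1 := SimpleGraph.edist_eq_one_iff_adj.2 h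
  rw [this]
  norm_num

theorem adj_mul {i : ℕ} (g : Gn i) {s : Gn i} (hs : s ∈ Sn i) :
    (cg (Sn i) (Sn_inv i) (bn i)).Adj g (g * s) := by
  refine ⟨?_, ?_⟩
  · intro h
    have h2 : s = 1 := by
      have := congrArg (fun z => g⁻¹ * z) h
      simp only [inv_mul_cancel, inv_mul_cancel_left] at this
      exact this.symm
    rw [h2] at hs
    exact one_notMem_Sn i hs
  · left
    rwa [inv_mul_cancel_left]

theorem pOp_sig_mem (w : FreeGroup (Fin 3)) : pOp (sig w) ∈ XX.roe := by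
  induction w using FreeGroup.induction_on with
  | C1 => rw [sig_one, pOp_one]; exact one_mem _
  | of l =>
    apply finProp_pOp _ 2
    rintro ⟨i, g⟩
    rw [sig_apply]
    apply edist_adj
    apply adj_mul
    have := gn_mem i (l, 0)
    unfold gn at this
    simpa using this
  | inv_of l h =>
    rw [← sig_inv, ← star_pOp]
    exact star_mem h
  | mul x y hx hy =>
    rw [← sig_mul, ← pOp_mul]
    exact mul_mem hx hy

theorem tau_dist (i : ℕ) (g : Gn i) :
    XX.edist (⟨i, g⟩ : XX.Pt) (tau (⟨i, g⟩ : XX.Pt)) < 2 := by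
  rw [tau_apply]
  by_cases h1 : g = 1
  · rw [h1, Equiv.swap_apply_left]
    apply edist_adj
    exact ⟨(bn_ne_one i).symm, Or.inr (Or.inl ⟨rfl, rfl⟩)⟩
  · by_cases h2 : g = bn i
    · rw [h2, Equiv.swap_apply_right]
      apply edist_adj
      exact ⟨bn_ne_one i, Or.inr (Or.inr ⟨rfl, rfl⟩)⟩
    · rw [Equiv.swap_apply_of_ne_of_ne h1 h2, XX.edist_self]
      norm_num

theorem pOp_tau_mem : pOp tau ∈ XX.roe := by
  apply finProp_pOp _ 2
  rintro ⟨i, g⟩
  exact tau_dist i g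

theorem dOp_mem (A : Set XX.Pt) : dOp A ∈ XX.roe := finProp_dOp A

/-- translation operators in the Roe algebra -/
def U (w : FreeGroup (Fin 3)) : XX.roe := ⟨pOp (sig w), pOp_sig_mem w⟩

/-- the flip operator in the Roe algebra -/
def Ut : XX.roe := ⟨pOp tau, pOp_tau_mem⟩

/-- diagonal projections in the Roe algebra -/
def D (A : Set XX.Pt) : XX.roe := ⟨dOp A, dOp_mem A⟩

theorem U_mul (v w : FreeGroup (Fin 3)) : U v * U w = U (v * w) := by
  apply Subtype.ext
  show pOp (sig v) * pOp (sig w) = pOp (sig (v * w))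
  rw [pOp_mul, sig_mul]

theorem U_one : U 1 = 1 := by
  apply Subtype.ext
  show pOp (sig 1) = 1
  rw [sig_one, pOp_one]

theorem U_star (w : FreeGroup (Fin 3)) : star (U w) = U w⁻¹ := by
  apply Subtype.ext
  show star (pOp (sig w)) = pOp (sig w⁻¹)
  rw [star_pOp, sig_inv]

theorem Ut_star : star Ut = Ut := by
  apply Subtype.ext
  show star (pOp tau) = pOp tau
  rw [star_pOp, tau_inv]

theorem Ut_mul : Ut * Ut = 1 := by
  apply Subtype.ext
  show pOp tau * pOp tau = 1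
  rw [pOp_mul, tau_mul, pOp_one]

theorem D_star (A : Set XX.Pt) : star (D A) = D A := by
  apply Subtype.ext
  exact star_dOp A

theorem D_mul_self (A : Set XX.Pt) : D A * D A = D A := by
  apply Subtype.ext
  exact dOp_mul_self A

theorem U_congr {v w : FreeGroup (Fin 3)} (h : ∀ i, rho i v = rho i w) : U v = U w := by
  apply Subtype.ext
  show pOp (sig v) = pOp (sig w)
  congr 1
  apply Equiv.ext
  rintro ⟨i, g⟩
  rw [sig_apply, sig_apply, h]

theorem U_pow (w : FreeGroup (Fin 3)) (k : ℕ) : U w ^ k = U (w ^ k) := by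
  induction k with
  | zero => rw [pow_zero, pow_zero, U_one]
  | succ k ih => rw [pow_succ, ih, U_mul, pow_succ]

/-- extensionality in the Roe algebra -/
theorem roe_ext {S T : XX.roe} (h : ∀ (ξ : XX.L2) (i : ℕ) (g : Gn i),
    (S.1 ξ) (⟨i, g⟩ : XX.Pt) = (T.1 ξ) (⟨i, g⟩ : XX.Pt)) : S = T := by
  apply Subtype.ext
  apply op_ext
  rintro ξ ⟨i, g⟩
  exact h ξ i g

theorem U_apply (w : FreeGroup (Fin 3)) (ξ : XX.L2) (i : ℕ) (g : Gn i) :
    ((U w).1 ξ) (⟨i, g⟩ : XX.Pt) = ξ (⟨i, g * rho i w⟩ : XX.Pt) := by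
  show (pOp (sig w) ξ) _ = _
  rw [pOp_apply, sig_apply]

theorem Ut_apply (ξ : XX.L2) (i : ℕ) (g : Gn i) :
    (Ut.1 ξ) (⟨i, g⟩ : XX.Pt) = ξ (⟨i, Equiv.swap (1 : Gn i) (bn i) g⟩ : XX.Pt) := by
  show (pOp tau ξ) _ = _
  rw [pOp_apply, tau_apply]

open Classical in
theorem D_apply (A : Set XX.Pt) (ξ : XX.L2) (p : XX.Pt) :
    ((D A).1 ξ) p = if p ∈ A then ξ p else 0 := by
  show (dOp A ξ) p = _
  rw [dOp_apply]

theorem mul_apply' (S T : XX.roe) (ξ : XX.L2) : (S * T).1 ξ = S.1 (T.1 ξ) := rfl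

theorem sub_apply' (S T : XX.roe) (ξ : XX.L2) (p : XX.Pt) :
    ((S - T).1 ξ) p = (S.1 ξ) p - (T.1 ξ) p := rfl

theorem add_apply' (S T : XX.roe) (ξ : XX.L2) (p : XX.Pt) :
    ((S + T).1 ξ) p = (S.1 ξ) p + (T.1 ξ) p := rfl

theorem one_apply' (ξ : XX.L2) : (1 : XX.roe).1 ξ = ξ := rfl

theorem zero_apply' (ξ : XX.L2) (p : XX.Pt) : ((0 : XX.roe).1 ξ) p = 0 := rfl

theorem sum_apply' {ι : Type} (s : Finset ι) (f : ι → XX.roe) (ξ : XX.L2) (p : XX.Pt) :
    ((∑ k ∈ s, f k).1 ξ) p = ∑ k ∈ s, ((f k).1 ξ) p := by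
  classical
  induction s using Finset.induction_on with
  | empty => simp only [Finset.sum_empty]; exact zero_apply' ξ p
  | insert a s ha ih => rw [Finset.sum_insert ha, Finset.sum_insert ha, add_apply', ih]

/-- the group part of the Laplacian -/
def lapA : XX.roe := ∑ p : Fin 3 × Fin 4, (1 - U (FreeGroup.of p.1 ^ (p.2.val + 1)))

/-- the Laplacian -/
def lap : XX.roe := lapA + (1 - Ut)

theorem lapA_apply (ξ : XX.L2) (i : ℕ) (g : Gn i) :
    (lapA.1 ξ) (⟨i, g⟩ : XX.Pt)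
      = ∑ p : Fin 3 × Fin 4, (ξ (⟨i, g⟩ : XX.Pt) - ξ (⟨i, g * gn i p⟩ : XX.Pt)) := by
  unfold lapA
  rw [sum_apply']
  refine Finset.sum_congr rfl (fun p _ => ?_)
  rw [sub_apply', U_apply, one_apply', map_pow]
  rfl

open Classical in
theorem lap_apply (ξ : XX.L2) (i : ℕ) (g : Gn i) : (lap.1 ξ) (⟨i, g⟩ : XX.Pt)
    = ∑ y : Gn i, if (cg (Sn i) (Sn_inv i) (bn i)).Adj g y then
        ξ (⟨i, g⟩ : XX.Pt) - ξ (⟨i, y⟩ : XX.Pt) else 0 := by
  obtain ⟨f, hf⟩ : ∃ f : Gn i → ℂ, f = fun y => ξ (⟨i, g⟩ : XX.Pt) - ξ (⟨i, y⟩ : XX.Pt) :=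
    ⟨_, rfl⟩
  have hff : ∀ y, ξ (⟨i, g⟩ : XX.Pt) - ξ (⟨i, y⟩ : XX.Pt) = f y := by intro y; rw [hf]
  have hfg : f g = 0 := by rw [hf]; simp
  unfold lap
  rw [add_apply', lapA_apply, sub_apply', one_apply', Ut_apply]
  simp only [hff]
  have h1 : ∑ p : Fin 3 × Fin 4, f (g * gn i p)
      = ∑ y : Gn i, if g⁻¹ * y ∈ Sn i then f y else 0 := by
    have e1 : ∑ y : Gn i, (if g⁻¹ * y ∈ Sn i then f y else 0)
        = ∑ s : Gn i, if s ∈ Sn i then f (g * s) else 0 := by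
      rw [← Equiv.sum_comp (Equiv.mulLeft g)]
      refine Finset.sum_congr rfl (fun s _ => ?_)
      simp
    rw [e1, ← Finset.sum_filter, Finset.filter_mem_eq_inter, Finset.univ_inter]
    unfold Sn
    rw [Finset.sum_image (fun a _ b _ h => gn_inj i h)]
  have h2 : f (Equiv.swap (1 : Gn i) (bn i) g)
      = ∑ y : Gn i, if (g = 1 ∧ y = bn i) ∨ (g = bn i ∧ y = 1) then f y else 0 := by
    by_cases hg1 : g = 1
    · rw [hg1, Equiv.swap_apply_left]
      have : ∀ y : Gn i, (if ((1 : Gn i) = 1 ∧ y = bn i) ∨ ((1 : Gn i) = bn i ∧ y = 1) then f y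
          else 0) = if y = bn i then f y else 0 := by
        intro y
        have h0 : ¬ ((1 : Gn i) = bn i) := (bn_ne_one i).symm
        simp [h0]
      rw [Finset.sum_congr rfl (fun y _ => this y), Finset.sum_ite_eq' Finset.univ (bn i) f]
      simp
    · by_cases hgb : g = bn i
      · rw [hgb, Equiv.swap_apply_right]
        have : ∀ y : Gn i, (if (bn i = 1 ∧ y = bn i) ∨ (bn i = bn i ∧ y = 1) then f y
            else 0) = if y = 1 then f y else 0 := by
          intro y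
          have h0 : ¬ (bn i = 1) := bn_ne_one i
          simp [h0]
        rw [Finset.sum_congr rfl (fun y _ => this y), Finset.sum_ite_eq' Finset.univ 1 f]
        simp
      · rw [Equiv.swap_apply_of_ne_of_ne hg1 hgb, hfg]
        symm
        apply Finset.sum_eq_zero
        intro y _
        rw [if_neg]
        rintro (h | h)
        · exact hg1 h.1
        · exact hgb h.1
  rw [h1, h2, ← Finset.sum_add_distrib]
  refine Finset.sum_congr rfl (fun y _ => ?_)
  by_cases ha : g⁻¹ * y ∈ Sn i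
  · have hne : g ≠ y := by
      rintro rfl
      rw [inv_mul_cancel] at ha
      exact one_notMem_Sn i ha
    have hnb : ¬ ((g = 1 ∧ y = bn i) ∨ (g = bn i ∧ y = 1)) := by
      rintro (⟨h, h'⟩ | ⟨h, h'⟩)
      · rw [h, h', inv_one, one_mul] at ha
        exact bn_notMem_S i ha
      · rw [h, h', mul_one] at ha
        exact bn_inv_notMem_S i ha
    rw [if_pos ha, if_neg hnb, add_zero, if_pos]
    exact ⟨hne, Or.inl ha⟩
  · rw [if_neg ha, zero_add]
    by_cases hb : (g = 1 ∧ y = bn i) ∨ (g = bn i ∧ y = 1)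
    · have hne : g ≠ y := by
        rcases hb with ⟨h, h'⟩ | ⟨h, h'⟩
        · rw [h, h']; exact (bn_ne_one i).symm
        · rw [h, h']; exact bn_ne_one i
      rw [if_pos hb, if_pos]
      exact ⟨hne, Or.inr hb⟩
    · rw [if_neg hb, if_neg]
      rintro ⟨-, h | h⟩
      · exact ha h
      · exact hb h

theorem isLaplacian_lap : XX.IsLaplacian lap.1 := fun ξ i g => lap_apply ξ i g

end

end Pool.Agent.Work.MP_99d66e_al
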