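import Pool.Agent.Work.MP_99d66e_al.Defs

set_option autoImplicit false

namespace Pool.Agent.Work.MP_99d66e_al

open scoped InnerProductSpace ENNReal

namespace BoxSpace

variable (X : BoxSpace)

theorem two_toReal_pos : (0 : ℝ) < (2 : ℝ≥0∞).toReal := by norm_num

variable {X}

theorem wMem (f : X.Pt → ℂ) (hf : ∀ p, ‖f p‖ ≤ 1) (σ : Equiv.Perm X.Pt) (ξ : X.L2) :
    Memℓp (fun p => f p * ξ (σ p)) 2 := by
  apply memℓp_gen
  have h := (lp.memℓp ξ).summable two_toReal_pos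
  have h2 := (Equiv.summable_iff σ).2 h
  refine Summable.of_nonneg_of_le (fun p => by positivity) (fun p => ?_) h2
  simp only [Function.comp]
  apply Real.rpow_le_rpow (norm_nonneg _) _ two_toReal_pos.le
  rw [norm_mul]
  calc ‖f p‖ * ‖ξ (σ p)‖ ≤ 1 * ‖ξ (σ p)‖ := mul_le_mul_of_nonneg_right (hf p) (norm_nonneg _)
    _ = _ := one_mul _

/-- weighted permutation operators -/
noncomputable def wOp (f : X.Pt → ℂ) (hf : ∀ p, ‖f p‖ ≤ 1) (σ : Equiv.Perm X.Pt) :
    X.L2 →L[ℂ] X.L2 :=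
  LinearMap.mkContinuous
    { toFun := fun ξ => ⟨fun p => f p * ξ (σ p), wMem f hf σ ξ⟩
      map_add' := by
        intro ξ η
        ext p
        simp [mul_add]
      map_smul' := by
        intro c ξ
        ext p
        simp
        ring } 1 (by
    intro ξ
    rw [one_mul]
    apply lp.norm_le_of_tsum_le two_toReal_pos (norm_nonneg _)
    have h := (lp.memℓp ξ).summable two_toReal_pos
    have h2 : Summable (fun p => ‖ξ (σ p)‖ ^ (2 : ℝ≥0∞).toReal) :=
      (Equiv.summable_iff σ (f := fun p => ‖ξ p‖ ^ (2 : ℝ≥0∞).toReal)).2 h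
    have h3 : ‖ξ‖ ^ (2 : ℝ≥0∞).toReal = ∑' p, ‖ξ (σ p)‖ ^ (2 : ℝ≥0∞).toReal := by
      rw [lp.norm_rpow_eq_tsum two_toReal_pos ξ]
      exact (Equiv.tsum_eq σ (fun p => ‖ξ p‖ ^ (2 : ℝ≥0∞).toReal)).symm
    rw [h3]
    refine Summable.tsum_le_tsum (fun p => ?_) ((wMem f hf σ ξ).summable two_toReal_pos) h2
    apply Real.rpow_le_rpow (norm_nonneg _) _ two_toReal_pos.le
    simp only [LinearMap.coe_mk, AddHom.coe_mk]
    rw [norm_mul]
    calc ‖f p‖ * ‖ξ (σ p)‖ ≤ 1 * ‖ξ (σ p)‖ := mul_le_mul_of_nonneg_right (hf p) (norm_nonneg _)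
      _ = _ := one_mul _)

@[simp]
theorem wOp_apply (f : X.Pt → ℂ) (hf : ∀ p, ‖f p‖ ≤ 1) (σ : Equiv.Perm X.Pt) (ξ : X.L2)
    (p : X.Pt) : wOp f hf σ ξ p = f p * ξ (σ p) := rfl

/-- permutation operators -/
noncomputable def pOp (σ : Equiv.Perm X.Pt) : X.L2 →L[ℂ] X.L2 :=
  wOp (fun _ => 1) (fun _ => by simp) σ

@[simp]
theorem pOp_apply (σ : Equiv.Perm X.Pt) (ξ : X.L2) (p : X.Pt) : pOp σ ξ p = ξ (σ p) := by
  unfold pOp; rw [wOp_apply, one_mul]

open Classical in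
/-- diagonal projections -/
noncomputable def dOp (A : Set X.Pt) : X.L2 →L[ℂ] X.L2 :=
  wOp (fun p => if p ∈ A then 1 else 0) (fun p => by split_ifs <;> simp) 1

open Classical in
@[simp]
theorem dOp_apply (A : Set X.Pt) (ξ : X.L2) (p : X.Pt) :
    dOp A ξ p = if p ∈ A then ξ p else 0 := by
  unfold dOp
  rw [wOp_apply]
  split_ifs <;> simp

theorem op_ext {S T : X.L2 →L[ℂ] X.L2} (h : ∀ ξ p, S ξ p = T ξ p) : S = T := by
  ext ξ p
  exact h ξ p

theorem star_pOp (σ : Equiv.Perm X.Pt) : star (pOp σ) = pOp σ⁻¹ := by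
  rw [ContinuousLinearMap.star_eq_adjoint, eq_comm, ContinuousLinearMap.eq_adjoint_iff]
  intro ξ η
  rw [lp.inner_eq_tsum, lp.inner_eq_tsum, ← Equiv.tsum_eq σ]
  congr 1
  funext p
  rw [pOp_apply, pOp_apply]
  simp

theorem star_dOp (A : Set X.Pt) : star (dOp A) = dOp A := by
  rw [ContinuousLinearMap.star_eq_adjoint, eq_comm, ContinuousLinearMap.eq_adjoint_iff]
  intro ξ η
  rw [lp.inner_eq_tsum, lp.inner_eq_tsum]
  congr 1
  funext p
  rw [dOp_apply, dOp_apply]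
  split_ifs <;> simp

theorem pOp_mul (σ τ : Equiv.Perm X.Pt) : pOp σ * pOp τ = pOp (X := X) (τ * σ) := by
  apply op_ext
  intro ξ p
  show (pOp σ (pOp τ ξ)) p = _
  simp

theorem pOp_one : pOp (X := X) 1 = 1 := by
  apply op_ext
  intro ξ p
  simp

theorem dOp_mul_self (A : Set X.Pt) : dOp A * dOp A = dOp (X := X) A := by
  apply op_ext
  intro ξ p
  show (dOp A (dOp A ξ)) p = _
  simp only [dOp_apply]
  split_ifs <;> rfl

theorem delta_apply (p q : X.Pt) : X.delta p q = if q = p then 1 else 0 := by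
  unfold delta
  split_ifs with h
  · subst h; exact lp.single_apply_self _ _ _
  · exact lp.single_apply_ne _ _ _ h

theorem finProp_pOp (σ : Equiv.Perm X.Pt) (R : ℕ) (h : ∀ p, X.edist p (σ p) < R) :
    X.FinProp (pOp σ) := by
  rw [finProp_iff]
  refine ⟨R, ?_⟩
  intro p q hpq
  rw [pOp_apply, delta_apply, if_neg]
  intro h0
  have := h q
  rw [h0, edist_comm] at this
  exact absurd this (not_lt.2 hpq)

theorem finProp_dOp (A : Set X.Pt) : X.FinProp (dOp A) := by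
  rw [finProp_iff]
  refine ⟨1, ?_⟩
  intro p q hpq
  rw [dOp_apply, delta_apply]
  have hne : q ≠ p := by
    rintro rfl
    rw [edist_self] at hpq
    simp at hpq
  rw [if_neg hne]; simp

end BoxSpace

end Pool.Agent.Work.MP_99d66e_al
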