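import Mathlib

set_option autoImplicit false

namespace Pool.Agent.Work.MP_99d66e_al

open Finset

section pair

variable {B : Type*} [CStarAlgebra B]

/-- the average of the powers of `x` -/
noncomputable def avg (x : B) : B := (5⁻¹ : ℝ) • ∑ k ∈ range 5, x ^ k

theorem mul_avg {x : B} (hx : x ^ 5 = 1) : x * avg x = avg x := by
  unfold avg
  rw [mul_smul_comm]
  congr 1
  simp only [sum_range_succ, sum_range_zero]
  calc x * (0 + x ^ 0 + x ^ 1 + x ^ 2 + x ^ 3 + x ^ 4)
      = x ^ 5 + x + x ^ 2 + x ^ 3 + x ^ 4 := by noncomm_ring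
    _ = _ := by rw [hx]; noncomm_ring

theorem avg_mul {x : B} (hx : x ^ 5 = 1) : avg x * x = avg x := by
  unfold avg
  rw [smul_mul_assoc]
  congr 1
  simp only [sum_range_succ, sum_range_zero]
  calc (0 + x ^ 0 + x ^ 1 + x ^ 2 + x ^ 3 + x ^ 4) * x
      = x ^ 5 + x + x ^ 2 + x ^ 3 + x ^ 4 := by noncomm_ring
    _ = _ := by rw [hx]; noncomm_ring

theorem pow_mul_avg {x : B} (hx : x ^ 5 = 1) (k : ℕ) : x ^ k * avg x = avg x := by
  induction k with
  | zero => simp
  | succ k ih => rw [pow_succ, mul_assoc, mul_avg hx, ih]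

theorem avg_mul_pow {x : B} (hx : x ^ 5 = 1) (k : ℕ) : avg x * x ^ k = avg x := by
  induction k with
  | zero => simp
  | succ k ih => rw [pow_succ', ← mul_assoc, avg_mul hx, ih]

theorem avg_of_const {x a b : B} (h : ∀ k < 5, a * x ^ k * b = a * b) :
    a * avg x * b = a * b := by
  unfold avg
  rw [mul_smul_comm, smul_mul_assoc, mul_sum, sum_mul]
  rw [sum_congr rfl (fun k hk => h k (mem_range.1 hk)), sum_const, card_range]
  rw [← Nat.cast_smul_eq_nsmul ℝ, smul_smul]
  norm_num

theorem avg_mul_avg {x : B} (hx : x ^ 5 = 1) : avg x * avg x = avg x := by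
  have := avg_of_const (x := x) (a := 1) (b := avg x) (fun k _ => by
    rw [one_mul, pow_mul_avg hx, one_mul])
  simpa using this

theorem star_avg {x : B} (hx : x ^ 5 = 1) (hu : star x * x = 1) : star (avg x) = avg x := by
  have h1 : star x = x ^ 4 := by
    calc star x = star x * x ^ 5 := by rw [hx, mul_one]
      _ = (star x * x) * x ^ 4 := by noncomm_ring
      _ = x ^ 4 := by rw [hu, one_mul]
  unfold avg
  rw [star_smul]
  simp only [star_sum, star_pow, h1, star_trivial]
  congr 1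
  simp only [sum_range_succ, sum_range_zero]
  have h2 : (x ^ 4) ^ 2 = x ^ 3 := by
    calc (x ^ 4) ^ 2 = x ^ 5 * x ^ 3 := by noncomm_ring
      _ = _ := by rw [hx, one_mul]
  have h3 : (x ^ 4) ^ 3 = x ^ 2 := by
    calc (x ^ 4) ^ 3 = x ^ 5 * x ^ 5 * x ^ 2 := by noncomm_ring
      _ = _ := by rw [hx, one_mul, one_mul]
  have h4 : (x ^ 4) ^ 4 = x := by
    calc (x ^ 4) ^ 4 = x ^ 5 * x ^ 5 * x ^ 5 * x := by noncomm_ring
      _ = _ := by rw [hx, one_mul, one_mul, one_mul]
  rw [h2, h3, h4, pow_zero, pow_zero, pow_one, pow_one]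
  abel

theorem comm_pow {x y z : B} (hz : x * y = z * (y * x)) (zx : z * x = x * z) (zy : z * y = y * z)
    (a b : ℕ) : x ^ a * y ^ b = z ^ (a * b) * (y ^ b * x ^ a) := by
  have cx : Commute z x := zx
  have cy : Commute z y := zy
  have h1 : ∀ b : ℕ, x * y ^ b = z ^ b * (y ^ b * x) := by
    intro b
    induction b with
    | zero => simp
    | succ b ih =>
      calc x * y ^ (b + 1) = (x * y ^ b) * y := by rw [pow_succ, mul_assoc]
        _ = z ^ b * y ^ b * (x * y) := by rw [ih]; noncomm_ring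
        _ = z ^ b * (y ^ b * z) * (y * x) := by rw [hz]; noncomm_ring
        _ = z ^ b * (z * y ^ b) * (y * x) := by rw [(cy.pow_right b).eq]
        _ = z ^ (b + 1) * (y ^ (b + 1) * x) := by rw [pow_succ, pow_succ]; noncomm_ring
  induction a with
  | zero => simp
  | succ a ih =>
    calc x ^ (a + 1) * y ^ b = x ^ a * (x * y ^ b) := by rw [pow_succ, mul_assoc]
      _ = (x ^ a * z ^ b) * (y ^ b * x) := by rw [h1]; noncomm_ring
      _ = (z ^ b * x ^ a) * (y ^ b * x) := by rw [((cx.pow_left b).pow_right a).eq]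
      _ = z ^ b * (x ^ a * y ^ b) * x := by noncomm_ring
      _ = z ^ b * (z ^ (a * b) * (y ^ b * x ^ a)) * x := by rw [ih]
      _ = (z ^ b * z ^ (a * b)) * (y ^ b * (x ^ a * x)) := by noncomm_ring
      _ = z ^ ((a + 1) * b) * (y ^ b * x ^ (a + 1)) := by
        rw [← pow_add, ← pow_succ]
        congr 2
        ring

/-- the relations used for the angle estimate -/
structure PairData (P Q E : B) : Prop where
  PP : P * P = P
  QQ : Q * Q = Q
  EE : E * E = E
  sP : star P = P
  sQ : star Q = Q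
  sE : star E = E
  PE : P * E = E * P
  QE : Q * E = E * Q
  EPQ : E * P * Q = E * Q * P
  PQP : P * Q * P = (5⁻¹ : ℝ) • (P - P * E) + E * P * Q

theorem commute_avg {x w : B} (h : Commute w x) : Commute w (avg x) := by
  unfold avg
  exact Commute.smul_right (Commute.sum_right _ _ _ (fun k _ => h.pow_right k)) _

theorem pairData_of_unitary {x y z : B} (hx : x ^ 5 = 1) (hy : y ^ 5 = 1) (hux : star x * x = 1)
    (huy : star y * y = 1) (huz : star z * z = 1)
    (hz : x * y = z * (y * x)) (zx : z * x = x * z) (zy : z * y = y * z) :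
    PairData (avg x) (avg y) (avg z) := by
  have cx : Commute z x := zx
  have cy : Commute z y := zy
  have hyi : y * y ^ 4 = 1 := by rw [← pow_succ', hy]
  have hz5 : z ^ 5 = 1 := by
    have h1 := comm_pow hz zx zy 5 1
    rw [hx, one_mul, pow_one, mul_one, mul_one] at h1
    calc z ^ 5 = z ^ 5 * (y * y ^ 4) := by rw [hyi, mul_one]
      _ = (z ^ 5 * y) * y ^ 4 := by noncomm_ring
      _ = y * y ^ 4 := by rw [← h1]
      _ = 1 := hyi
  have avx : Commute x (avg z) := commute_avg cx.symm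
  have avy : Commute y (avg z) := commute_avg cy.symm
  have avgx : Commute (avg x) (avg z) := (commute_avg avx.symm).symm
  have avgy : Commute (avg y) (avg z) := (commute_avg avy.symm).symm
  have hE : ∀ a b : ℕ, avg z * (x ^ a * y ^ b) = avg z * (y ^ b * x ^ a) := by
    intro a b
    rw [comm_pow hz zx zy, ← mul_assoc, avg_mul_pow hz5]
  have hEPQ : avg z * avg x * avg y = avg z * avg y * avg x := by
    have e1 : avg x * avg y = (5⁻¹ * 5⁻¹ : ℝ) • ∑ a ∈ range 5, ∑ b ∈ range 5, x ^ a * y ^ b := by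
      rw [avg.eq_1 x, avg.eq_1 y, smul_mul_smul_comm, sum_mul_sum]
    have e2 : avg y * avg x = (5⁻¹ * 5⁻¹ : ℝ) • ∑ a ∈ range 5, ∑ b ∈ range 5, y ^ b * x ^ a := by
      rw [avg.eq_1 x, avg.eq_1 y, smul_mul_smul_comm, sum_mul_sum, sum_comm]
    rw [mul_assoc, mul_assoc, e1, e2, mul_smul_comm, mul_smul_comm, mul_sum, mul_sum]
    congr 1
    refine sum_congr rfl (fun a _ => ?_)
    rw [mul_sum, mul_sum]
    exact sum_congr rfl (fun b _ => hE a b)
  refine ⟨avg_mul_avg hx, avg_mul_avg hy, avg_mul_avg hz5, star_avg hx hux, star_avg hy huy,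
    star_avg hz5 huz, avgx.eq, avgy.eq, hEPQ, ?_⟩
  -- P y^b P = P E y^b P for 1 ≤ b ≤ 4
  have hb : ∀ b ∈ range 5, b ≠ 0 → avg x * y ^ b * avg x = avg x * avg z * (y ^ b * avg x) := by
    intro b hb5 hb0
    have h1 : ∀ c : ℕ, avg x * z ^ (c * b) * (y ^ b * avg x) = avg x * (y ^ b * avg x) := by
      intro c
      calc avg x * z ^ (c * b) * (y ^ b * avg x)
          = avg x * (z ^ (c * b) * (y ^ b * (x ^ c * avg x))) := by
            rw [pow_mul_avg hx]; noncomm_ring
        _ = avg x * ((z ^ (c * b) * (y ^ b * x ^ c)) * avg x) := by noncomm_ring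
        _ = avg x * ((x ^ c * y ^ b) * avg x) := by rw [← comm_pow hz zx zy]
        _ = (avg x * x ^ c) * (y ^ b * avg x) := by noncomm_ring
        _ = avg x * (y ^ b * avg x) := by rw [avg_mul_pow hx]
    have h2 : avg x * avg z * (y ^ b * avg x)
        = (5⁻¹ : ℝ) • ∑ c ∈ range 5, avg x * z ^ (c * b) * (y ^ b * avg x) := by
      conv_lhs => rw [avg.eq_1 z]
      rw [mul_smul_comm, smul_mul_assoc, mul_sum, sum_mul]
      congr 1
      have hz' : ∀ k : ℕ, z ^ (k + 5) = z ^ k := fun k => by rw [pow_add, hz5, mul_one]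
      rw [mem_range] at hb5
      have hcases : b = 1 ∨ b = 2 ∨ b = 3 ∨ b = 4 := by omega
      simp only [sum_range_succ, sum_range_zero]
      rcases hcases with rfl | rfl | rfl | rfl
      · simp
      · norm_num
        rw [hz' 1, hz' 3]; simp only [pow_one]; abel
      · norm_num
        rw [hz' 1, show (9 : ℕ) = 4 + 5 from rfl, hz' 4, show (12 : ℕ) = 2 + 5 + 5 from rfl,
          hz' (2 + 5), hz' 2]
        simp only [pow_one]; abel
      · norm_num
        rw [hz' 3, show (12 : ℕ) = 2 + 5 + 5 from rfl, hz' (2 + 5), hz' 2,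
          show (16 : ℕ) = 1 + 5 + 5 + 5 from rfl, hz' (1 + 5 + 5), hz' (1 + 5), hz' 1]
        simp only [pow_one]; abel
    rw [h2, sum_congr rfl (fun c _ => h1 c), sum_const, card_range,
      ← Nat.cast_smul_eq_nsmul ℝ, smul_smul, mul_assoc]
    norm_num
  have hsum : ∑ b ∈ range 5, avg x * y ^ b * avg x
      = (avg x - avg x * avg z) + ∑ b ∈ range 5, avg x * avg z * (y ^ b * avg x) := by
    have e : avg x * avg z * avg x = avg x * avg z := by
      rw [mul_assoc, ← avgx.eq, ← mul_assoc, avg_mul_avg hx]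
    rw [← add_sum_erase _ _ (show 0 ∈ range 5 by simp),
      ← add_sum_erase _ (fun b => avg x * avg z * (y ^ b * avg x)) (show 0 ∈ range 5 by simp)]
    have h3 : ∑ b ∈ (range 5).erase 0, avg x * y ^ b * avg x
        = ∑ b ∈ (range 5).erase 0, avg x * avg z * (y ^ b * avg x) := by
      refine sum_congr rfl (fun b hb' => ?_)
      rw [mem_erase] at hb'
      exact hb b hb'.2 hb'.1
    rw [h3, pow_zero, mul_one, one_mul, avg_mul_avg hx, e]
    abel
  have h4 : avg x * avg y * avg x = (5⁻¹ : ℝ) • ∑ b ∈ range 5, avg x * y ^ b * avg x := by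
    conv_lhs => rw [avg.eq_1 y]
    rw [mul_smul_comm, smul_mul_assoc, mul_sum, sum_mul]
  have h5 : (5⁻¹ : ℝ) • ∑ b ∈ range 5, avg x * avg z * (y ^ b * avg x)
      = avg z * avg x * avg y := by
    have : (5⁻¹ : ℝ) • ∑ b ∈ range 5, avg x * avg z * (y ^ b * avg x)
        = avg x * avg z * (avg y * avg x) := by
      conv_rhs => rw [avg.eq_1 y]
      rw [smul_mul_assoc, mul_smul_comm, sum_mul, mul_sum]
    rw [this, avgx.eq]
    calc avg z * avg x * (avg y * avg x) = (avg z * avg x * avg y) * avg x := by noncomm_ring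
      _ = (avg z * avg y * avg x) * avg x := by rw [hEPQ]
      _ = avg z * avg y * (avg x * avg x) := by noncomm_ring
      _ = avg z * avg y * avg x := by rw [avg_mul_avg hx]
      _ = _ := by rw [hEPQ]
  rw [h4, hsum, smul_add, h5]

end pair

end Pool.Agent.Work.MP_99d66e_al
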