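import Pool.Agent.Work.MP_99d66e_al.Groups
import Pool.Agent.Work.MP_99d66e_al.Ops
import Pool.Agent.Work.MP_99d66e_al.Finite

set_option autoImplicit false

namespace Pool.Agent.Work.MP_99d66e_al

open scoped Pointwise

noncomputable section

instance decGn (n : ℕ) : DecidableEq (Gn n) := Classical.decEq _

/-- the twelve generators -/
def gn (n : ℕ) (p : Fin 3 × Fin 4) : Gn n := rho n (FreeGroup.of p.1) ^ (p.2.val + 1)

theorem gn_inj (n : ℕ) : Function.Injective (gn n) := by
  rintro ⟨l, k⟩ ⟨l', k'⟩ h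
  obtain ⟨h1, h2⟩ := rho_inj n (k := k.val + 1) (k' := k'.val + 1) (by omega) (by omega)
    (by omega) h
  simp only at h1
  subst h1
  have : k = k' := Fin.ext (by omega)
  rw [this]

/-- the generating set -/
def Sn (n : ℕ) : Finset (Gn n) := Finset.univ.image (gn n)

theorem card_Sn (n : ℕ) : (Sn n).card = 12 := by
  unfold Sn
  rw [Finset.card_image_of_injective _ (gn_inj n)]
  rfl

theorem one_notMem_Sn (n : ℕ) : (1 : Gn n) ∉ Sn n := by
  unfold Sn
  rw [Finset.mem_image]
  rintro ⟨⟨l, k⟩, -, h⟩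
  exact rho_ne_one n l (k := k.val + 1) (by omega) (by omega) h

theorem gn_mem (n : ℕ) (p : Fin 3 × Fin 4) : gn n p ∈ Sn n :=
  Finset.mem_image_of_mem _ (Finset.mem_univ _)

theorem Sn_inv (n : ℕ) : ∀ s ∈ Sn n, s⁻¹ ∈ Sn n := by
  intro s hs
  unfold Sn at hs
  rw [Finset.mem_image] at hs
  obtain ⟨⟨l, k⟩, -, rfl⟩ := hs
  have h : (gn n (l, k))⁻¹ = gn n (l, ⟨3 - k.val, by omega⟩) := by
    rw [inv_eq_iff_mul_eq_one]
    show rho n (FreeGroup.of l) ^ (k.val + 1) * rho n (FreeGroup.of l) ^ (3 - k.val + 1) = 1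
    rw [← pow_add, show k.val + 1 + (3 - k.val + 1) = 5 by omega, rho_pow_five]
  rw [h]
  exact gn_mem n _

theorem closure_Sn (n : ℕ) : Subgroup.closure (Sn n : Set (Gn n)) = ⊤ := by
  rw [eq_top_iff]
  rintro g -
  obtain ⟨w, rfl⟩ := rho_surj n g
  induction w using FreeGroup.induction_on with
  | C1 => rw [map_one]; exact one_mem _
  | of l =>
    apply Subgroup.subset_closure
    have := gn_mem n (l, 0)
    unfold gn at this
    simpa using this
  | inv_of l h => rw [map_inv]; exact inv_mem h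
  | mul x y hx hy => rw [map_mul]; exact mul_mem hx hy

theorem card_ball (n R : ℕ) : (ball (Sn n) R).card ≤ 13 ^ R := by
  unfold ball
  refine le_trans Finset.card_pow_le (Nat.pow_le_pow_left ?_ R)
  refine le_trans (Finset.card_insert_le _ _) ?_
  rw [card_Sn]

theorem exists_bn (n : ℕ) : ∃ b : Gn n, b ∉ ball (Sn n) (Nat.log 13 (Fintype.card (Gn n) - 1)) := by
  by_contra hcon
  push Not at hcon
  have h1 : ball (Sn n) (Nat.log 13 (Fintype.card (Gn n) - 1)) = Finset.univ :=
    Finset.eq_univ_iff_forall.2 hcon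
  have h2 := card_ball n (Nat.log 13 (Fintype.card (Gn n) - 1))
  have h3 := card_Gn n
  have h4 := Nat.pow_log_le_self 13 (x := Fintype.card (Gn n) - 1) (by omega)
  rw [h1, Finset.card_univ] at h2
  omega

/-- the far point -/
def bn (n : ℕ) : Gn n := (exists_bn n).choose

theorem bn_spec (n R : ℕ) (h : 13 ^ R < n + 14) : bn n ∉ ball (Sn n) R := by
  intro hb
  apply (exists_bn n).choose_spec
  refine ball_mono _ ?_ hb
  have h3 := card_Gn n
  exact Nat.le_log_of_pow_le (by norm_num) (by omega)

theorem ball_one {G : Type} [Group G] [Fintype G] [DecidableEq G] (S : Finset G) :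
    ball S 1 = insert 1 S := by
  unfold ball
  rw [pow_one]

theorem bn_notMem (n : ℕ) : bn n ∉ insert 1 (Sn n) := by
  have := bn_spec n 1 (by omega)
  rwa [ball_one] at this

theorem bn_ne_one (n : ℕ) : bn n ≠ 1 := by
  intro h
  apply bn_notMem n
  rw [h]
  exact Finset.mem_insert_self _ _

theorem bn_notMem_S (n : ℕ) : bn n ∉ Sn n := fun h => bn_notMem n (Finset.mem_insert_of_mem h)

theorem bn_inv_notMem_S (n : ℕ) : (bn n)⁻¹ ∉ Sn n := by
  intro h
  have := Sn_inv n _ h
  rw [inv_inv] at this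
  exact bn_notMem_S n this

/-- the box space -/
def XX : BoxSpace where
  V := Gn
  fintypeV := fun _ => inferInstance
  graph := fun i => cg (Sn i) (Sn_inv i) (bn i)
  degree_bdd := by
    refine ⟨14, ?_⟩
    intro i x
    have hsub : {y | (cg (Sn i) (Sn_inv i) (bn i)).Adj x y} ⊆
        (((Sn i).image (fun s => x * s)) ∪ {1, bn i} : Finset (Gn i)) := by
      intro y hy
      rcases hy.2 with h | h | h
      · rw [Finset.mem_coe, Finset.mem_union]
        left
        rw [Finset.mem_image]
        exact ⟨x⁻¹ * y, h, by rw [mul_inv_cancel_left]⟩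
      · simp [h.2]
      · simp [h.2]
    refine le_trans (Set.ncard_le_ncard hsub (Finset.finite_toSet _)) ?_
    rw [Set.ncard_coe_finset]
    refine le_trans (Finset.card_union_le _ _) ?_
    have h1 : ((Sn i).image (fun s => x * s)).card ≤ 12 := by
      rw [← card_Sn i]; exact Finset.card_image_le
    have h2 : ({1, bn i} : Finset (Gn i)).card ≤ 2 := Finset.card_le_two
    omega
  card_tendsto := by
    apply Filter.tendsto_atTop_mono (f := fun i => i)
    · intro i
      rw [Nat.card_eq_fintype_card]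
      have := card_Gn i
      omega
    · exact Filter.tendsto_id

theorem XX_V (i : ℕ) : XX.V i = Gn i := rfl

end

end Pool.Agent.Work.MP_99d66e_al
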