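import Pool.Agent.Work.MP_99d66e_al.Defs

set_option autoImplicit false

namespace Pool.Agent.Work.MP_99d66e_al

namespace BoxSpace

variable (X : BoxSpace)

/-- The Hilbert space `ℓ²(X)` of square summable complex functions on `X`. -/
def Hilb : Type := lp (fun _ : X.Pt => ℂ) 2

noncomputable instance instHilb1 : NormedAddCommGroup X.Hilb :=
  (lp.normedAddCommGroup : NormedAddCommGroup (lp (fun _ : X.Pt => ℂ) 2))

noncomputable instance instHilb2 : InnerProductSpace ℂ X.Hilb :=
  (lp.instInnerProductSpace : InnerProductSpace ℂ (lp (fun _ : X.Pt => ℂ) 2))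

instance instHilb3 : CompleteSpace X.Hilb :=
  (lp.completeSpace : CompleteSpace (lp (fun _ : X.Pt => ℂ) 2))

variable {X}

/-- The value of a function at a point. -/
def Hilb.val (ξ : X.Hilb) (p : X.Pt) : ℂ :=
  (show lp (fun _ : X.Pt => ℂ) 2 from ξ) p

variable (X)

/-- The basis vector at the point `p`. -/
noncomputable def basisVec (p : X.Pt) : X.Hilb :=
  (show X.Hilb from (lp.single 2 p (1 : ℂ) : lp (fun _ : X.Pt => ℂ) 2))

/-- The bounded operators on `ℓ²(X)`. -/
noncomputable def Op : Type := X.Hilb →L[ℂ] X.Hilb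

/-- They form a C*-algebra (with the operator norm and the adjoint). -/
noncomputable instance instOp : CStarAlgebra X.Op :=
  (instCStarAlgebraContinuousLinearMapComplexIdOfCompleteSpace :
    CStarAlgebra (X.Hilb →L[ℂ] X.Hilb))

variable {X}

/-- The value of an operator at a vector. -/
noncomputable def Op.app (T : X.Op) (ξ : X.Hilb) : X.Hilb := (show X.Hilb →L[ℂ] X.Hilb from T) ξ

/-- Finite propagation: the matrix entries `(T δ_p)(q)` vanish when `p` and `q` are far apart. -/
def Op.FiniteProp (T : X.Op) : Prop :=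
  ∃ R : ℕ, ∀ p q : X.Pt, (R : ℕ∞) ≤ X.edist p q → (T.app (X.basisVec p)).val q = 0

theorem Op.finiteProp_mul {S T : X.Op} (hS : S.FiniteProp) (hT : T.FiniteProp) :
    (S * T).FiniteProp := X.finProp_mul hS hT

theorem Op.finiteProp_add {S T : X.Op} (hS : S.FiniteProp) (hT : T.FiniteProp) :
    (S + T).FiniteProp := X.finProp_add hS hT

theorem Op.finiteProp_algebraMap (c : ℂ) : Op.FiniteProp (algebraMap ℂ X.Op c) :=
  X.finProp_algebraMap c

theorem Op.finiteProp_star {T : X.Op} (hT : T.FiniteProp) : (star T).FiniteProp :=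
  X.finProp_star hT

variable (X)

/-- The algebraic Roe algebra `ℂ[X]`: bounded operators of finite propagation. -/
noncomputable def roeAlg : StarSubalgebra ℂ X.Op where
  carrier := {T | T.FiniteProp}
  mul_mem' := Op.finiteProp_mul
  add_mem' := Op.finiteProp_add
  algebraMap_mem' := Op.finiteProp_algebraMap
  star_mem' := Op.finiteProp_star

/-- The algebraic Roe algebra `ℂ[X]` as a type. -/
def Roe : Type := X.roeAlg

noncomputable instance instRoe1 : Ring X.Roe := SubringClass.toRing X.roeAlg

noncomputable instance instRoe2 : StarRing X.Roe := StarSubalgebra.starRing X.roeAlg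

noncomputable instance instRoe3 : Algebra ℂ X.Roe := StarSubalgebra.algebra X.roeAlg

variable {X}

/-- The underlying operator. -/
def Roe.op (a : X.Roe) : X.Op := (show X.roeAlg from a).1

open Classical in
/-- `Δ` is the graph Laplacian. -/
def Roe.IsLaplacian (Δ : X.Roe) : Prop :=
  ∀ (ξ : X.Hilb) (i : ℕ) (x : X.V i), (Δ.op.app ξ).val ⟨i, x⟩ =
    ∑ y : X.V i, if (X.graph i).Adj x y then ξ.val ⟨i, x⟩ - ξ.val ⟨i, y⟩ else 0

/-- Uniform spectral gap: there is `c > 0` such that the spectrum of the image of `Δ` is contained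
in `{0} ∪ [c, ∞)` for every unital star homomorphism from the algebraic Roe algebra to a unital
C*-algebra (in particular the maximal uniform Roe algebra). -/
def Roe.HasSpectralGap (Δ : X.Roe) : Prop :=
  ∃ c : ℝ, 0 < c ∧ ∀ (B : Type) [CStarAlgebra B] (j : X.Roe →⋆ₐ[ℂ] B),
    spectrum ℂ (j Δ) ⊆ {z | z = 0 ∨ ∃ r : ℝ, c ≤ r ∧ z = (r : ℂ)}

/-- Sums of squares in the algebraic Roe algebra. -/
def Roe.IsSumOfSquares (a : X.Roe) : Prop :=
  ∃ (n : ℕ) (ξ : Fin n → X.Roe), a = ∑ k, star (ξ k) * ξ k

end BoxSpace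

end Pool.Agent.Work.MP_99d66e_al
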